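import Pool.Agent.MP_6bef34_co.H88.Core

/-! Arrival at a right site. -/

namespace Pool.Agent.MP_6bef34_co.H88

open Finset
open Pool.Agent.MP_6bef34_co.H7 (Site d Wall Box need corner)
open Pool.Agent.MP_6bef34_co.H28

variable {Lo : Pt → Finset Pt → Prop} {N : ℤ} {s t : St Nd} {b : Site} {i : ZMod 6}

/-- one step to a right corner -/
theorem go_to (h : Inv (par Lo N) s) (he : s.e = (b, i)) (hr : b + d (i + 1) ∈ s.R) :
    Inv (par Lo N) s.go ∧ s.go.g = s.g + 2 ∧ s.mu < s.go.mu ∧ s.go.e = (b + d (i + 1), i + 5) := by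
  obtain ⟨a1, a2, a3⟩ := h.go (by rw [he]; exact hr)
  refine ⟨a1, a2, by omega, ?_⟩
  rw [St.go_e, he, ← H50.ix_m]
  rfl

/-- one turn round a wall corner -/
theorem turn_to (h : Inv (par Lo N) s) (he : s.e = (b, i)) (hw : Wall s.De (b + d (i + 1)))
    (hg : -1 ≤ s.g) :
    Inv (par Lo N) s.turn ∧ s.turn.g = s.g ∧ s.mu < s.turn.mu ∧ s.turn.e = (b, i + 1) := by
  obtain ⟨a1, a2, a3⟩ := h.turn (by rw [he]; exact hw) (Or.inr hg)
  refine ⟨a1, a2, by omega, ?_⟩
  rw [St.turn_e, he]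

theorem arr_real (h : Inv (par Lo N) s) (he : s.e = (b, i)) (ha : ARR s b i)
    (hv : b + d (i + 1) ∉ s.V) : Nx Lo N s := by
  obtain ⟨hr, hD⟩ := ha
  obtain ⟨h1, g1, m1, e1⟩ := go_to h he hr
  have hg : 0 ≤ s.go.g := by rcases hD with a | a <;> omega
  obtain ⟨m, o, u5, w0, -⟩ := h.three hr (by rw [he]; exact H7.add_d_ne _ _)
  have o' : (b + d (i + 1), m) ∈ s.go.O := mem_insert_of_mem o
  have hb : b + d (i + 1) + d (i + 5 + 5) = b := by
    rw [add_assoc, (by decide : ∀ i : ZMod 6, d (i + 1) + d (i + 5 + 5) = 0), add_zero]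
  have hl : b + d (i + 1) + d (i + 5) = b + d i := by
    rw [add_assoc, (by decide : ∀ i : ZMod 6, d (i + 1) + d (i + 5) = d i)]
  refine Wk.nx ?_ m1
  rcases H7.six_cases (i + 5) m with rfl | rfl | rfl | rfl | rfl | rfl
  · exact absurd (e1 ▸ o') h1.geo.new
  · exact (good_rv h1 e1 hv hg (Or.inl o')).wk
  · exact (good_rv h1 e1 hv hg (Or.inr (Or.inl o'))).wk
  · exact (good_rv h1 e1 hv hg (Or.inr (Or.inr o'))).wk
  · rcases s.dec (b + d (i + 1) + d (i + 5 + 1)) with a | a | a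
    · obtain ⟨h2, g2, m2, e2⟩ := turn_to h1 e1 a (by omega)
      refine Wk.of_le (good_rv h2 e2 hv (by omega) (Or.inr (Or.inr ?_))).wk m2.le
      rw [H50.ix13]
      exact mem_insert_of_mem o'
    · exact (good_arr h1 e1 ⟨a, Or.inl (by omega)⟩).wk
    have f0 := fl_ge h1 (b + d (i + 1))
    rw [H50.ix45] at u5
    refine post3 h1 e1 hv ⟨fun c => c.1 w0, Or.inr ⟨a.1, by omega, ?_⟩⟩
    by_cases u2 : s.U (b + d (i + 1) + d (i + 5 + 2))
    swap
    · exact Or.inl u2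
    by_cases f1 : 1 ≤ fl s.go (b + d (i + 1))
    · exact Or.inr (Or.inl ⟨f1, Or.inl u5⟩)
    obtain ⟨d1, d2, d3⟩ := (hD.resolve_left (by omega)).2
    rw [H50.ix51] at a
    rw [H50.ix52] at u2
    have c2 := d1 hv a u2
    have n2 := Nd.nB_le_cnt (node_ok h1 hr hv).1.2 (b + d (i + 1))
    rw [node_cnt] at n2
    simp only [fl, St.go_z, St.go_c] at f1 n2
    have n3 : (node s.go (b + d (i + 1))).nB (b + d (i + 1)) ≤ 2 := by omega
    refine Or.inr (Or.inr (Or.inl ⟨n3, u5, fun _ _ a3 a4 => ?_⟩))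
    have ho : b + d (i + 1) + d (i + 5 + 1) + d (i + 5) = b + d i + d i := by
      rw [add_right_comm, hl, H50.ix51]
    rw [ho] at a3 a4 ⊢
    rw [hl, St.go_c, St.go_c, d3 a3 a4]
    omega
  · rw [hb] at w0
    exact absurd w0 (h.geo.free _ (head_R h he))

/-- two turns at most, then the base of the virtual site is the corner -/
theorem arr_base {v : Site} (h : Inv (par Lo N) t) (hv : v ∈ t.V) (he : t.e = (v, t.vj v + 5))
    (hg : -1 ≤ t.g) : Wk Lo N t :=
  (good_arr h he ⟨by rw [H50.ix51]; exact (h.v0 v hv).2.1, Or.inl hg⟩).wk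

theorem arr_four {v : Site} (h : Inv (par Lo N) t) (hv : v ∈ t.V) (he : t.e = (v, t.vj v + 4))
    (h5 : ¬ t.U (v + d (t.vj v + 5))) (hg : -1 ≤ t.g) : Wk Lo N t := by
  rcases t.dec (v + d (t.vj v + 5)) with a | a | a
  · obtain ⟨h2, g2, m2, e2⟩ := turn_to h he (by rwa [H50.ix41]) hg
    rw [H50.ix41] at e2
    exact Wk.of_le (arr_base h2 hv e2 (by omega)) m2.le
  · exact (good_arr h he ⟨by rwa [H50.ix41], Or.inl hg⟩).wk
  · exact absurd a h5

/-- the state after the late absorption of the virtual site `v` -/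
theorem after_retro (h : Inv (par Lo N) s) {v : Site} (hv : v ∈ s.V) {O' : Finset H7.Dart} {k : ℕ}
    (h1 : Inv (par Lo N) ((s.retro v O').claim v k)) (hO : ∀ f ∈ s.O, f.1 ≠ v → f ∈ O')
    (hg : 0 ≤ ((s.retro v O').claim v k).g) (h5 : ¬ Wall s.De (v + d (s.vj v + 5)))
    (hc : Wall s.De (v + d (s.vj v + 4)) ∨ 1 ≤ ((s.retro v O').claim v k).g ∨
      (s.c v + k ≤ 3 ∧ ((par Lo N).Cok (s.nd (v + d (s.vj v))) (v + d (s.vj v)) v ∨
        ¬ s.U (v + d (s.vj v) + d (s.vj v))))) : Wk Lo N ((s.retro v O').claim v k) := by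
  obtain ⟨-, hr, hv', -, -⟩ := h.v0 v hv
  have hH := h.vH v hv
  have hE := hO _ (h.v_entry hv) (H7.add_d_ne _ _)
  have hvR := h.vR hv
  have hU : ∀ u, ((s.retro v O').claim v k).U u ↔ s.U u := fun u =>
    St.U_retro (O' := O') hvR
  have he : ((s.retro v O').claim v k).e = (v + d (s.vj v), s.vj v + 3) := rfl
  have hDe : ((s.retro v O').claim v k).De = insert v s.De := rfl
  have hR : ((s.retro v O').claim v k).R = s.R.erase v := rfl
  have hO' : ((s.retro v O').claim v k).O = O' := rfl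
  have hV : v + d (s.vj v) ∉ ((s.retro v O').claim v k).V := fun a => hv' (mem_of_mem_erase a)
  have hn : node ((s.retro v O').claim v k) (v + d (s.vj v)) = node s (v + d (s.vj v)) := rfl
  have hcv : ((s.retro v O').claim v k).c v = s.c v + k := St.c_claim_self _ _ _
  have hcu : ∀ u, u ≠ v → ((s.retro v O').claim v k).c u = s.c u := fun u a =>
    St.c_claim_ne _ _ a
  have hz : ∀ u, ((s.retro v O').claim v k).z u = s.z u := fun u => rfl
  have hs := (node_ok h hr hv').1.2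
  generalize (s.retro v O').claim v k = t at *
  generalize s.vj v = j at *
  have p0 : v + d j + d (j + 3) = v := by rw [add_assoc, H7.d_add3, add_zero]
  have p1 : v + d j + d (j + 3 + 1) = v + d (j + 5) := by
    rw [add_assoc, (by decide : ∀ j : ZMod 6, d j + d (j + 3 + 1) = d (j + 5))]
  have p2 : v + d (j + 5) + d (j + 3) = v + d (j + 4) := by
    rw [add_assoc, (by decide : ∀ j : ZMod 6, d (j + 5) + d (j + 3) = d (j + 4))]
  have p3 : v + d (j + 5) + d (j + 2) = v := by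
    rw [add_assoc, (by decide : ∀ j : ZMod 6, d (j + 5) + d (j + 2) = 0), add_zero]
  have w5 : ¬ Wall t.De (v + d j + d (j + 3 + 1)) := by
    rw [p1, hDe, H7.wall_insert_of_ne (H7.add_d_ne _ _)]
    exact h5
  by_cases a : v + d (j + 5) ∈ s.R
  · refine (good_arr h1 he ⟨?_, Or.inl (by omega)⟩).wk
    rw [p1, hR]
    exact mem_erase.2 ⟨H7.add_d_ne _ _, a⟩
  have f0 := fl_ge h1 (v + d j)
  refine post3 h1 he hV ⟨?_, Or.inr ⟨w5, by omega, ?_⟩⟩
  · rw [H50.ix34, ← H50.ix25]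
    exact h1.back_dec (mem_insert_of_mem (hO' ▸ hE))
  rcases hH with hH | hH
  swap
  · refine Or.inl ?_
    rwa [H50.ix32, hU]
  have n2 : (node t (v + d j)).nB (v + d j) ≤ 2 := hn ▸ hH
  rcases hc with c | c | ⟨c3, c⟩
  · refine Or.inr (Or.inr (Or.inr (Or.inl ⟨n2, fun e => ?_⟩)))
    rw [p1] at e
    refine (by decide : ∀ j : ZMod 6, j + 2 ≠ j + 3) j (e _ _ ?_ ?_)
    · rw [p3, hDe]
      exact H7.wall_insert.2 (Or.inl rfl)
    · rw [p2, hDe]
      exact c.mono (subset_insert _ _)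
  · exact Or.inr (Or.inl ⟨by omega, Or.inr n2⟩)
  have fr : t.U (v + d (j + 4)) → K1 t.De (v + d (j + 4)) → t.c (v + d (j + 4)) = 0 :=
    fun a3 a4 => by
      rw [hcu _ (H7.add_d_ne _ _)]
      exact h.fresh (h.geo.free _ hvR) ((hU _).1 a3) (hDe ▸ a4)
  have co : ColOK t (v + d j) (j + 3) := fun _ _ a3 a4 => by
    rw [p1, p2] at a3 a4 ⊢
    rw [p0, fr a3 a4, hcv]
    omega
  rcases c with ⟨c1, c2, c4⟩ | c
  · refine Or.inr (Or.inr (Or.inr (Or.inr ⟨hn ▸ c4, co, fun _ a2 a3 a4 a5 a6 => ?_⟩)))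
    have z0 : t.z (v + d j + d (j + 3 + 1) + d (j + 3)) = 0 := by
      rw [p1, p2] at a3 a4 a6 ⊢
      rw [fr a3 a4] at a6
      omega
    refine ⟨z0, pair_game (hn ▸ hs) ?_ a2 n2 z0⟩
    rw [p0] at a5 ⊢
    refine ⟨hn ▸ c1, ?_, hn ▸ c2⟩
    rw [node_cnt]
    omega
  · refine Or.inr (Or.inr (Or.inl ⟨n2, ?_, co⟩))
    rwa [H50.ix33, hU]

theorem arr_virt (G : Gm Lo N) (h : Inv (par Lo N) s) (he : s.e = (b, i))
    (hv : b + d (i + 1) ∈ s.V) (hg : -2 ≤ s.g) : Nx Lo N s := by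
  have hc : corner s.e = b + d (i + 1) := by rw [he]; rfl
  have hA := h.v_arrive (hc ▸ hv)
  obtain ⟨h1, g1, m1, e1⟩ := go_to h he (h.vR hv)
  have hw := head_wall h1 e1
  have hbR := head_R h he
  rw [hc] at hA
  generalize b + d (i + 1) = v at *
  have c3 := (h.v0 v hv).2.2.2.2
  have cz := h.cz v
  rcases hA with hA | hA | hA
  · obtain ⟨rfl, rfl⟩ := Prod.ext_iff.1 (he.symm.trans hA)
    rw [H50.ix45] at e1 hw
    rcases s.dec (v + d (s.vj v + 4)) with a | a | a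
    · by_cases u5 : s.U (v + d (s.vj v + 5))
      · obtain ⟨O', a1, a2, a3, a4⟩ := h.retro2 hv hA (fun c => h.geo.free _ c.1 a) 0 (by omega)
        rw [if_pos a] at a2
        exact (after_retro h hv a1 a4 (by omega) u5.1 (Or.inl a)).nx a3
      · obtain ⟨h2, g2, m2, e2⟩ := turn_to h1 e1 (by rwa [H50.ix31]) (by omega)
        rw [H50.ix31] at e2
        exact (arr_four h2 hv e2 u5 (by omega)).nx (by omega)
    · exact (good_arr h1 e1 ⟨by rwa [H50.ix31], Or.inl (by omega)⟩).wk.nx m1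
    by_cases w5 : Wall s.De (v + d (s.vj v + 5))
    · obtain ⟨-, hr, hv', -, -⟩ := h.v0 v hv
      have hB : Box (par Lo N).M (v + d (s.vj v + 4)) := by
        have := box2 (Lo := Lo) (box_real G h hr hv') (s.vj v + 3) (s.vj v + 4)
        rwa [add_assoc v, H7.d_add3, add_zero] at this
      have h2 := h1.absorb a hB
      have g2 := h1.g_absorb a
      have m2 := St.mu_absorb (s := s.go) a
      have n0 : need s.go.De (v + d (s.vj v + 4)) ≤ 0 := by
        refine H7.need_le_zero (j := s.vj v) ?_ (Or.inl ?_)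
        · rwa [add_assoc, (by decide : ∀ j : ZMod 6, d (j + 4) + d j = d (j + 5))]
        · rwa [add_assoc, (by decide : ∀ j : ZMod 6, d (j + 4) + d (j + 2) = d (j + 3))]
      obtain ⟨h3, g3, m3, e3⟩ := turn_to h2 e1
        (by rw [H50.ix31]; exact H7.wall_insert.2 (Or.inl rfl)) (by omega)
      rw [H50.ix31] at e3
      exact (arr_four h3 hv e3 (fun c => c.1 (w5.mono (subset_insert _ _))) (by omega)).nx
        (by omega)
    rcases h.vbig v hv (h.geo.free _ hbR) a.1 with c | c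
    · obtain ⟨O', a1, a2, a3, a4⟩ := h.retro2 hv hA (fun c => a.2 c.1) 3 c
      rw [if_neg a.1] at a2
      exact (after_retro h hv a1 a4 (by omega) w5 (Or.inr (Or.inl (by omega)))).nx a3
    · obtain ⟨O', a1, a2, a3, a4⟩ := h.retro2 hv hA (fun c => a.2 c.1) 2 c.1
      rw [if_neg a.1] at a2
      exact (after_retro h hv a1 a4 (by omega) w5 (Or.inr (Or.inr ⟨by omega, c.2⟩))).nx a3
  · obtain ⟨rfl, rfl⟩ := Prod.ext_iff.1 (he.symm.trans hA)
    rw [H50.ix55] at e1 hw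
    by_cases u5 : s.U (v + d (s.vj v + 5))
    · obtain ⟨O', a1, a2, a3, a4⟩ := h.retro3 hv hA 0 (by omega)
      exact (after_retro h hv a1 a4 (by omega) u5.1 (Or.inl hw)).nx a3
    · exact (arr_four h1 hv e1 u5 (by omega)).nx m1
  · obtain ⟨rfl, rfl⟩ := Prod.ext_iff.1 (he.symm.trans hA)
    exact (arr_base h1 hv e1 (by omega)).nx m1

end Pool.Agent.MP_6bef34_co.H88
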