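import Pool.Agent.MP_6bef34_co.H88.Good
import Pool.Agent.MP_6bef34_co.H28.Init
import Pool.Agent.MP_6bef34_co.H92.Node

/-! The first state is good; a walk without end is impossible. -/

namespace Pool.Agent.MP_6bef34_co.H88

open Finset
open Pool.Agent.MP_6bef34_co.H7 (Site d Wall Box need)
open Pool.Agent.MP_6bef34_co.H28

variable {Lo : Pt → Finset Pt → Prop} {N : ℤ}

theorem no_lost (G : Gm Lo N) (hn : ∀ s, Good Lo N s → Nx Lo N s) (Q : Finset Pt)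
    (Z0 nw : Multiset Site) (h0 : ∀ u ∈ Z0, u.1 ≤ -2) (h2 : nw.card ≤ 2)
    (hQ : toks Q ≤ nw + Z0) : ¬ Lo (sp (0, 0) 0) Q := by
  intro hL
  have hN : 0 ≤ N := (abs_nonneg _).trans (G.box _ _ hL).1
  obtain ⟨h, hg⟩ := Inv.start (P := par Lo N) (Z0 := Z0) (nw := nw)
    (n := ⟨sp (0, 0) 0, Q, nw + Z0, 0⟩) h0 (by simp only [par]; omega) ⟨hL, hQ, rfl⟩
  have hz := fun y => St.start_z h0 nw (⟨sp (0, 0) 0, Q, nw + Z0, 0⟩ : Nd) (y := y)
  have hc := fun y => St.start_c h0 nw (⟨sp (0, 0) 0, Q, nw + Z0, 0⟩ : Nd) (y := y)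
  have he : (St.start Z0 nw (⟨sp (0, 0) 0, Q, nw + Z0, 0⟩ : Nd)).e = ((0, 0), 1) := rfl
  have hv : (0, 0) ∉ (St.start Z0 nw (⟨sp (0, 0) 0, Q, nw + Z0, 0⟩ : Nd)).V := notMem_empty _
  have hw : ¬ Wall (St.start Z0 nw (⟨sp (0, 0) 0, Q, nw + Z0, 0⟩ : Nd)).De
      ((0, 0) + d (1 + 1)) := (by decide : ¬ Wall {(-1, 1)} ((0, 0) + d (1 + 1)))
  generalize St.start Z0 nw (⟨sp (0, 0) 0, Q, nw + Z0, 0⟩ : Nd) = s at h hg hz hc he hv hw
  refine H7.no_chain (Good Lo N) St.mu _ (fun t a => a.1.mu_le) hn s ?_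
  have hs : (node s (0, 0)).Sound := (node_ok h (head_R h he) hv).1.2
  have hb : ∀ y : Site, -1 ≤ y.1 → ¬ (node s (0, 0)).Blk y := fun y a b => by
    have b1 := b.three hs
    have b2 := Multiset.count_le_card y nw
    rw [node_cnt, hz y a] at b1
    omega
  have z0 := hz (0, 0) (by norm_num)
  have c0 := hc (0, 0) (by norm_num)
  have b0 := Multiset.count_le_card (0, 0) nw
  have n0 := Nd.nB_le_cnt hs (0, 0)
  rw [node_cnt] at n0
  refine good_c4 h he hv (by omega) ⟨hw, by omega, Or.inr ?_⟩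
  by_cases f2 : 2 ≤ fl s (0, 0)
  · exact Or.inl ⟨f2, by omega⟩
  simp only [fl] at f2 ⊢
  by_cases f1 : 1 ≤ s.g + s.z (0, 0) - s.c (0, 0)
  · exact Or.inr (Or.inl ⟨f1, Nd.h1_of_cnt hs (by rw [node_cnt]; omega)⟩)
  refine Or.inr (Or.inr ⟨by omega, fun _ _ _ _ => ?_, fun _ a => hb _ (by decide) a.1,
    fun _ => Or.inl ⟨fun a => hb _ (by decide) a.1, Or.inl (hb _ (by decide))⟩⟩)
  rw [hc _ (by decide), hc _ (by decide)]
  omega

end Pool.Agent.MP_6bef34_co.H88
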