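import Pool.Agent.MP_6bef34_co.H7.Link
import Pool.Agent.MP_6bef34_co.H88.Defs

/-! The real game satisfies the abstract interface. -/

namespace Pool.Agent.MP_6bef34_co.H7

open Finset H60 H88

/-- lost inside the box of radius `N` -/
def LoN (N : ℕ) (k : Pt) (Q : Finset Pt) : Prop := ∃ n : ℕ, Lost n k Q ∧ ∀ i, |k i| + n ≤ N

theorem gm (N : ℕ) : Gm (LoN N) N where
  move := fun p k' ⟨n, h1, h2⟩ hn ha => by
    obtain ⟨c, nw, a1, a2, a3⟩ := Live.move (N := N) (p := { p with n := n }) ⟨h1, h2⟩ hn ha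
    exact ⟨c, nw, a1, a2, c.n, a3⟩
  box := fun k Q ⟨n, _, h⟩ => by
    have a0 := h 0
    have a1 := h 1
    constructor <;> omega

/-- the theorem follows from the impossibility of a lost root -/
theorem final_of (H : ∀ (Lo : Pt → Finset Pt → Prop) (N : ℤ), Gm Lo N →
      ∀ (Q : Finset Pt) (Z0 nw : Multiset Site), (∀ s ∈ Z0, s.1 ≤ -2) → nw.card ≤ 2 →
        toks Q ≤ nw + Z0 → ¬ Lo (sp (0, 0) 0) Q) (R D : ℕ) :
    ∃ (k : Fin 4 → ℤ) (P : Finset (Fin 4 → ℤ)), P.card = R ∧ k ∉ P ∧ ¬ InCheck k P ∧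
      (∀ r ∈ P, ∃ i, (D : ℤ) ≤ |r i - k i|) ∧
      ∃ S : Set ((Fin 4 → ℤ) × Finset (Fin 4 → ℤ)), (k, P) ∈ S ∧
        ∀ p ∈ S, ∀ P', WhiteMove p.1 p.2 P' →
          ∃ k', KingMove p.1 P' k' ∧ (k', P'.erase k') ∈ S :=
  final' (fun N p nw T0 h hk hs hT hc h0 =>
    H _ _ (gm N) p.Q T0 nw h0 hc (hT ▸ hs) ⟨p.n, hk ▸ h.1, hk ▸ h.2⟩) R D

end Pool.Agent.MP_6bef34_co.H7
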