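import Pool.Agent.MP_6bef34_co.H60.Defs

/-! Forced checkmate. -/

namespace Pool.Agent.MP_6bef34_co.H7

open H60

/-- White, to move with the king on `k` and the rooks on `P`, forces checkmate: he has a move that
mates, or a move after which the king has a legal move and White forces checkmate after each -/
inductive Forces {d : ℕ} : (Fin d → ℤ) → Finset (Fin d → ℤ) → Prop
  | mate {k : Fin d → ℤ} {P P' : Finset (Fin d → ℤ)} : WhiteMove k P P' → InCheck k P' →
      (∀ k', ¬ KingMove k P' k') → Forces k P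
  | step {k : Fin d → ℤ} {P P' : Finset (Fin d → ℤ)} : WhiteMove k P P' →
      (∃ k', KingMove k P' k') → (∀ k', KingMove k P' k' → Forces k' (P'.erase k')) → Forces k P

theorem not_forces {d : ℕ} {S : Set ((Fin d → ℤ) × Finset (Fin d → ℤ))}
    (hS : ∀ p ∈ S, ∀ P', WhiteMove p.1 p.2 P' →
      ∃ k', KingMove p.1 P' k' ∧ (k', P'.erase k') ∈ S)
    {k : Fin d → ℤ} {P : Finset (Fin d → ℤ)} (h : Forces k P) : (k, P) ∉ S := by
  induction h with
  | mate a _ c =>
    intro hp
    obtain ⟨k', b, -⟩ := hS _ hp _ a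
    exact c k' b
  | step a _ _ ih =>
    intro hp
    obtain ⟨k', b, c⟩ := hS _ hp _ a
    exact ih k' b c

end Pool.Agent.MP_6bef34_co.H7
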