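import Mathlib

/-! Left-hand contour of a wall in the triangular lattice: darts, energy, closure, relabelling. -/

namespace Pool.Agent.MP_6bef34_co.H7

open Finset

/-- sites of the triangular lattice; `(p, q)` stands for `(p, q, -p-q)` -/
abbrev Site : Type := ℤ × ℤ

/-- a dart: right site and direction of the left site -/
abbrev Dart : Type := Site × ZMod 6

/-- the six directions -/
def d (i : ZMod 6) : Site :=
  if i = 0 then (-1, 0) else if i = 1 then (-1, 1) else if i = 2 then (0, 1)
  else if i = 3 then (1, 0) else if i = 4 then (1, -1) else (0, -1)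

theorem d_add (i : ZMod 6) : d i + d (i + 2) = d (i + 1) := by revert i; decide

theorem d_neg (i : ZMod 6) : d (i + 3) = -d i := by revert i; decide

theorem d_inj : ∀ {i j : ZMod 6}, d i = d j → i = j := by decide

theorem d_ne (i : ZMod 6) : d i ≠ 0 := by revert i; decide

theorem d_add4 (i : ZMod 6) : d i + d (i + 4) = d (i - 1) := by revert i; decide

theorem d_add3 (i : ZMod 6) : d i + d (i + 3) = 0 := by revert i; decide

theorem add_d_ne (x : Site) (i : ZMod 6) : x + d i ≠ x := fun h => d_ne i (by simpa using h)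

theorem add_d_inj {x : Site} {i j : ZMod 6} (h : x + d i = x + d j) : i = j :=
  d_inj (add_left_cancel h)

theorem d_bound (i : ZMod 6) :
    |(d i).1| ≤ 1 ∧ |(d i).2| ≤ 1 ∧ |(d i).1 + (d i).2| ≤ 1 := by revert i; decide

theorem sum_shift {M : Type*} [AddCommMonoid M] (f : ZMod 6 → M) (c : ZMod 6) :
    ∑ i, f (i + c) = ∑ i, f i := Equiv.sum_comp (Equiv.addRight c) f

theorem sum_six {M : Type*} [AddCommMonoid M] (f : ZMod 6 → M) (j : ZMod 6) :
    ∑ i, f i = f j + f (j + 1) + f (j + 2) + f (j + 3) + f (j + 4) + f (j + 5) := by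
  rw [← sum_shift f j]
  have := Fin.sum_univ_six (fun i : ZMod 6 => f (j + i))
  simp only [add_comm _ j]
  rw [← show f (j + 0) = f j by rw [add_zero]]
  exact this

theorem six_cases (j k : ZMod 6) :
    k = j ∨ k = j + 1 ∨ k = j + 2 ∨ k = j + 3 ∨ k = j + 4 ∨ k = j + 5 := by revert j k; decide

/-- the wall: the half plane `p < 0` and the dead sites -/
def Wall (De : Finset Site) (c : Site) : Prop := c.1 < 0 ∨ c ∈ De

instance (De : Finset Site) : DecidablePred (Wall De) := fun c => by
  unfold Wall
  infer_instance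

theorem Wall.mono {De De' : Finset Site} {c : Site} (h : Wall De c) (hs : De ⊆ De') :
    Wall De' c := h.imp id fun h => hs h

theorem wall_insert {De : Finset Site} {c x : Site} :
    Wall (insert x De) c ↔ c = x ∨ Wall De c := by
  simp only [Wall, mem_insert]
  tauto

theorem wall_insert_of_ne {De : Finset Site} {c x : Site} (h : c ≠ x) :
    Wall (insert x De) c ↔ Wall De c := by simp [wall_insert, h]

/-- left site of a dart -/
def lsite (f : Dart) : Site := f.1 + d f.2

/-- the corner in front of a dart -/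
def corner (f : Dart) : Site := f.1 + d (f.2 + 1)

/-- the next dart -/
def succ (De : Finset Site) (f : Dart) : Dart :=
  if Wall De (corner f) then (f.1, f.2 + 1) else (corner f, f.2 - 1)

/-- the dart before -/
def pred (De : Finset Site) (f : Dart) : Dart :=
  if Wall De (f.1 + d (f.2 - 1)) then (f.1, f.2 - 1) else (f.1 + d (f.2 - 1), f.2 + 1)

theorem succ_wall {De : Finset Site} {f : Dart} (h : Wall De (corner f)) :
    succ De f = (f.1, f.2 + 1) := if_pos h

theorem succ_free {De : Finset Site} {f : Dart} (h : ¬ Wall De (corner f)) :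
    succ De f = (corner f, f.2 - 1) := if_neg h

theorem corner_back (f : Dart) : corner f + d (f.2 - 1 - 1) = f.1 := by
  have : f.2 - 1 - 1 = f.2 + 1 + 3 := by generalize f.2 = i; revert i; decide
  rw [corner, this, add_assoc, d_add3, add_zero]

theorem lsite_free (f : Dart) : lsite (corner f, f.2 - 1) = lsite f := by
  have : ∀ i : ZMod 6, d (i + 1) + d (i - 1) = d i := by decide
  simp only [lsite, corner, add_assoc, this]

theorem pred_succ {De : Finset Site} {f : Dart} (h1 : Wall De (lsite f)) (h2 : ¬ Wall De f.1) :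
    pred De (succ De f) = f := by
  by_cases h : Wall De (corner f)
  · rw [succ_wall h, pred]
    simp only [add_sub_cancel_right]
    exact if_pos h1
  · rw [succ_free h, pred]
    simp only [corner_back, sub_add_cancel]
    exact if_neg h2

/-- the height -/
def ht (c : Site) : ℤ := 2 * c.2 + if 1 ≤ c.2 then 4 else min 4 (2 * c.1)

/-- weight of the step from the right site to the corner -/
def wt (f : Dart) : ℤ := 2 - (ht (corner f) - ht f.1)

/-- contribution of a dart to the energy -/
def term (De : Finset Site) (f : Dart) : ℤ :=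
  if ¬ Wall De f.1 ∧ ¬ Wall De (corner f) then wt f else 0

/-- the energy of the wall -/
def en (De : Finset Site) : ℤ := ∑ a ∈ De, ∑ i : ZMod 6, term De (a - d i, i)

/-- price of a pair of consecutive neighbours -/
def pr (a b : Prop) [Decidable a] [Decidable b] : ℤ :=
  if a then (if b then 0 else -2) else (if b then -2 else 2)

/-- change of the energy when `x` joins the wall -/
def need (De : Finset Site) (x : Site) : ℤ :=
  ∑ i : ZMod 6, pr (Wall De (x + d i)) (Wall De (x + d (i + 1)))

/-- the first dart -/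
def e0 : Dart := ((0, 0), 1)

theorem dart_cases (i : ZMod 6) :
    (i = 0 ∧ d i = (-1, 0) ∧ d (i + 1) = (-1, 1)) ∨ (i = 1 ∧ d i = (-1, 1) ∧ d (i + 1) = (0, 1)) ∨
    (i = 2 ∧ d i = (0, 1) ∧ d (i + 1) = (1, 0)) ∨ (i = 3 ∧ d i = (1, 0) ∧ d (i + 1) = (1, -1)) ∨
    (i = 4 ∧ d i = (1, -1) ∧ d (i + 1) = (0, -1)) ∨
    (i = 5 ∧ d i = (0, -1) ∧ d (i + 1) = (-1, 0)) := by revert i; decide

theorem term_zero {De : Finset Site} (hb : ((-1, 1) : Site) ∈ De) {f : Dart}
    (h1 : Wall De (lsite f)) (h2 : lsite f ∉ De) : term De f = 0 := by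
  rw [term]
  split_ifs with h
  · obtain ⟨⟨p, q⟩, i⟩ := f
    have a1 : ¬ p < 0 := fun a => h.1 (Or.inl a)
    have a2 : ¬ (corner ((p, q), i)).1 < 0 := fun a => h.2 (Or.inl a)
    have a3 := h1.resolve_right h2
    have a4 : lsite ((p, q), i) ≠ (-1, 1) := fun a => h2 (a ▸ hb)
    simp only [lsite, corner, wt, ht, ne_eq, Prod.ext_iff, Prod.fst_add, Prod.snd_add] at *
    rcases dart_cases i with b | b | b | b | b | b <;> simp only [b.2.1, b.2.2] at * <;>
      split_ifs <;> omega
  · rfl

theorem wt_neg {f : Dart} (h0 : 0 ≤ f.1.1) (h1 : 0 ≤ (corner f).1) (h : wt f < 0) :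
    f = e0 ∨ f = ((1, 0), 1) ∨ f = ((1, 0), 0) := by
  obtain ⟨⟨p, q⟩, i⟩ := f
  simp only [corner, wt, ht, Prod.ext_iff, Prod.fst_add, Prod.snd_add, e0] at *
  rcases dart_cases i with b | b | b | b | b | b <;> simp only [b.2.1, b.2.2] at * <;>
    simp only [b.1, and_true] <;> split_ifs at h <;> omega

theorem term_insert {De : Finset Site} (x : Site) (f : Dart) :
    term (insert x De) f = term De f - (if f.1 = x then term De f else 0) -
      if corner f = x then term De f else 0 := by
  have hne : corner f ≠ f.1 := add_d_ne _ _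
  simp only [term, wall_insert]
  by_cases h1 : f.1 = x
  · have h2 : corner f ≠ x := h1 ▸ hne
    simp [h1, h2]
  · by_cases h2 : corner f = x
    · simp [h1, h2]
    · simp [h1, h2]

theorem en_insert {De : Finset Site} {x : Site} (hx : ¬ Wall De x) (hb : ((-1, 1) : Site) ∈ De) :
    en (insert x De) = en De + need De x := by
  have hx1 : x ∉ De := fun h => hx (Or.inr h)
  have key : ∀ (g : ZMod 6 → Site) (i : ZMod 6),
      ∑ a ∈ De, (if a - d i = g i then term De (a - d i, i) else 0) =
        if Wall De (g i + d i) then term De (g i, i) else 0 := fun g i => by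
    have : ∀ a, (if a - d i = g i then term De (a - d i, i) else 0) =
        if a = g i + d i then term De (g i, i) else 0 := fun a => by
      by_cases h : a = g i + d i
      · simp [h]
      · rw [if_neg h, if_neg fun e => h (by rw [← e]; simp)]
    simp only [this, sum_ite_eq']
    by_cases h1 : g i + d i ∈ De
    · rw [if_pos h1, if_pos (show Wall De _ from Or.inr h1)]
    · rw [if_neg h1]
      split_ifs with h2
      · exact (term_zero hb (f := (g i, i)) h2 h1).symm
      · rfl
  have c1 : ∀ (a : Site) (i : ZMod 6), corner (a - d i, i) = x ↔ a - d i = x + d (i + 4) :=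
    fun a i => by
    have : d (i + 4) = -d (i + 1) := by rw [← d_neg]; congr 1; ring
    rw [corner, this, ← sub_eq_add_neg, eq_sub_iff_add_eq]
  have h1 : ∑ a ∈ De, ∑ i : ZMod 6, term (insert x De) (a - d i, i) = en De -
      (∑ i : ZMod 6, if Wall De (x + d i) then term De (x, i) else 0) -
      ∑ i : ZMod 6, if Wall De (x + d (i + 4) + d i) then term De (x + d (i + 4), i) else 0 := by
    simp only [term_insert x, sum_sub_distrib, c1]
    rw [sum_comm (f := fun a i => if a - d i = x then term De (a - d i, i) else 0),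
      sum_comm (f := fun a i => if a - d i = x + d (i + 4) then term De (a - d i, i) else 0)]
    simp only [key (fun _ => x), key (fun i => x + d (i + 4))]
    rfl
  set g : ZMod 6 → ℤ := fun k => if Wall De (x + d k) then ht x else ht (x + d k) with hg
  have h2 : ∀ k : ZMod 6, term (insert x De) (x - d (k + 4), k + 4) -
      (if Wall De (x + d k) then term De (x, k) else 0) -
      (if Wall De (x + d (k + 2 + 4) + d (k + 2)) then term De (x + d (k + 2 + 4), k + 2) else 0) =
      pr (Wall De (x + d k)) (Wall De (x + d (k + 1))) + (g (k + 1) - g k) := fun k => by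
    have e1 : x - d (k + 4) = x + d (k + 1) := by
      have : ∀ i : ZMod 6, d (i + 1) = -d (i + 4) := by decide
      rw [this, sub_eq_add_neg]
    have e2 : k + 2 + 4 = k := by generalize k = i; revert i; decide
    have e3 : x + d (k + 1) + d (k + 4 + 1) = x + d k := by
      have : ∀ i : ZMod 6, d (i + 1) + d (i + 4 + 1) = d i := by decide
      rw [add_assoc, this]
    have e4 : x + d k + d (k + 2) = x + d (k + 1) := by rw [add_assoc, d_add]
    have e5 : x + d k + d (k + 2 + 1) = x := by
      have : ∀ i : ZMod 6, d i + d (i + 2 + 1) = 0 := by decide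
      rw [add_assoc, this, add_zero]
    simp only [e1, e2, term, wt, corner, e3, e4, e5, pr, hg, wall_insert_of_ne (add_d_ne x _), hx]
    by_cases a1 : Wall De (x + d k) <;> by_cases a2 : Wall De (x + d (k + 1)) <;>
      simp only [a1, a2, not_true, not_false_eq_true, and_true, and_false, if_true, if_false] <;>
      ring
  have h3 := sum_congr rfl fun k (_ : k ∈ (univ : Finset (ZMod 6))) => h2 k
  rw [sum_sub_distrib, sum_sub_distrib, sum_add_distrib, sum_sub_distrib, sum_shift g 1,
    sum_shift (fun i => term (insert x De) (x - d i, i)) 4,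
    sum_shift (fun i => if Wall De (x + d (i + 4) + d i) then term De (x + d (i + 4), i) else 0) 2,
    ← need] at h3
  rw [en, sum_insert hx1, h1]
  omega

theorem need_eq (De : Finset Site) (x : Site) (j : ZMod 6) : need De x =
    pr (Wall De (x + d j)) (Wall De (x + d (j + 1))) +
    pr (Wall De (x + d (j + 1))) (Wall De (x + d (j + 2))) +
    pr (Wall De (x + d (j + 2))) (Wall De (x + d (j + 3))) +
    pr (Wall De (x + d (j + 3))) (Wall De (x + d (j + 4))) +
    pr (Wall De (x + d (j + 4))) (Wall De (x + d (j + 5))) +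
    pr (Wall De (x + d (j + 5))) (Wall De (x + d j)) := by
  have e1 : j + 1 + 1 = j + 2 := by ring
  have e2 : j + 2 + 1 = j + 3 := by ring
  have e3 : j + 3 + 1 = j + 4 := by ring
  have e4 : j + 4 + 1 = j + 5 := by ring
  have e5 : j + 5 + 1 = j := by revert j; decide
  rw [need, sum_six _ j, e1, e2, e3, e4, e5]

/-- one wall neighbour -/
theorem need_le_four {De : Finset Site} {x : Site} {j : ZMod 6} (h : Wall De (x + d j)) :
    need De x ≤ 4 := by
  rw [need_eq De x j]
  simp only [pr, h, if_true]
  split_ifs <;> omega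

/-- two adjacent wall neighbours -/
theorem need_le_two {De : Finset Site} {x : Site} {j : ZMod 6} (h : Wall De (x + d j))
    (h1 : Wall De (x + d (j + 1))) : need De x ≤ 2 := by
  rw [need_eq De x j]
  simp only [pr, h, h1, if_true]
  split_ifs <;> omega

/-- a wall neighbour `j` and another one that is not adjacent to it -/
theorem need_le_zero {De : Finset Site} {x : Site} {j : ZMod 6} (h : Wall De (x + d j))
    (h1 : Wall De (x + d (j + 2)) ∨ Wall De (x + d (j + 3)) ∨ Wall De (x + d (j + 4))) :
    need De x ≤ 0 := by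
  rw [need_eq De x j]
  simp only [pr, h, if_true]
  split_ifs <;> first | omega | tauto

/-- two separated arcs of wall neighbours -/
theorem need_le_neg {De : Finset Site} {x : Site} {j : ZMod 6} (h : Wall De (x + d j))
    (h1 : ¬ Wall De (x + d (j + 1))) (h5 : ¬ Wall De (x + d (j + 5)))
    (h2 : Wall De (x + d (j + 2)) ∨ Wall De (x + d (j + 3)) ∨ Wall De (x + d (j + 4))) :
    need De x ≤ -4 := by
  rw [need_eq De x j]
  simp only [pr, h, h1, h5, if_true, if_false]
  split_ifs <;> first | omega | tauto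

/-- number of steps to a new right site -/
def rc (De : Finset Site) (O : Finset Dart) : ℤ := ∑ f ∈ O, if Wall De (corner f) then 0 else 1

theorem rc_insert {De : Finset Site} {O : Finset Dart} {e : Dart} (h : e ∉ O) :
    rc De (insert e O) = rc De O + if Wall De (corner e) then 0 else 1 := by
  rw [rc, sum_insert h, add_comm, rc]

/-- the walked part of the contour -/
structure Geo (De R : Finset Site) (O : Finset Dart) (e : Dart) : Prop where
  free : ∀ b ∈ R, ¬ Wall De b
  base : ((-1, 1) : Site) ∈ De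
  root : ((0, 0) : Site) ∈ R
  ok : ∀ f ∈ insert e O, Wall De (lsite f) ∧ f.1 ∈ R
  dec : ∀ f ∈ O, Wall De (corner f) ∨ corner f ∈ R
  new : e ∉ O
  start : e0 ∈ insert e O
  fwd : ∀ f ∈ O, succ De f ∈ insert e O ∧ succ De f ≠ e0
  bwd : ∀ f ∈ insert e O, f = e0 ∨ ∃ g ∈ O, succ De g = f

variable {De R : Finset Site} {O : Finset Dart} {e : Dart}

theorem en_init : en {(-1, 1)} = -4 := by decide

theorem Geo.init : Geo {(-1, 1)} {(0, 0)} ∅ e0 where
  free := by decide
  base := by decide
  root := by decide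
  ok := by decide
  dec := by simp
  new := by simp
  start := by simp
  fwd := by simp
  bwd := by simp

theorem Geo.wall (h : Geo De R O e) : Wall De (e.1 + d e.2) := (h.ok e (mem_insert_self _ _)).1

theorem Geo.right (h : Geo De R O e) : e.1 ∈ R := (h.ok e (mem_insert_self _ _)).2

/-- a free site is declared a right site -/
theorem Geo.mark (h : Geo De R O e) {x : Site} (hx : ¬ Wall De x) : Geo De (insert x R) O e :=
  { h with
    free := fun b hb => by
      rcases mem_insert.1 hb with rfl | hb
      · exact hx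
      · exact h.free b hb
    root := mem_insert_of_mem h.root
    ok := fun f hf => ⟨(h.ok f hf).1, mem_insert_of_mem (h.ok f hf).2⟩
    dec := fun f hf => (h.dec f hf).imp id mem_insert_of_mem }

theorem succ_insert {x : Site} {f : Dart} (h : corner f ≠ x) :
    succ (insert x De) f = succ De f := by
  simp only [succ, wall_insert_of_ne h]

theorem Geo.corner_ne (h : Geo De R O e) {x : Site} (hx : x ∉ R) (hw : ¬ Wall De x) {f : Dart}
    (hf : f ∈ O) : corner f ≠ x := by
  rintro rfl
  exact (h.dec f hf).elim hw hx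

/-- an undecided site joins the wall -/
theorem Geo.absorb (h : Geo De R O e) {x : Site} (hx : x ∉ R) (hw : ¬ Wall De x) :
    Geo (insert x De) R O e where
  free := fun b hb hb' => by
    rcases wall_insert.1 hb' with rfl | hb'
    · exact hx hb
    · exact h.free b hb hb'
  base := mem_insert_of_mem h.base
  root := h.root
  ok := fun f hf => ⟨(h.ok f hf).1.mono (subset_insert _ _), (h.ok f hf).2⟩
  dec := fun f hf => (h.dec f hf).imp (fun a => a.mono (subset_insert _ _)) id
  new := h.new
  start := h.start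
  fwd := fun f hf => by
    rw [succ_insert (h.corner_ne hx hw hf)]
    exact h.fwd f hf
  bwd := fun f hf => (h.bwd f hf).imp id fun ⟨g, hg, a⟩ =>
    ⟨g, hg, (succ_insert (h.corner_ne hx hw hg)).trans a⟩

theorem Geo.rc_absorb (h : Geo De R O e) {x : Site} (hx : x ∉ R) (hw : ¬ Wall De x) :
    rc (insert x De) O = rc De O :=
  sum_congr rfl fun f hf => by simp only [wall_insert_of_ne (h.corner_ne hx hw hf)]

theorem Geo.inj (h : Geo De R O e) {f g : Dart} (hf : f ∈ insert e O) (hg : g ∈ insert e O)
    (a : succ De f = succ De g) : f = g := by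
  rw [← pred_succ (h.ok f hf).1 (h.free _ (h.ok f hf).2), a,
    pred_succ (h.ok g hg).1 (h.free _ (h.ok g hg).2)]

/-- the dart before a walked dart is walked -/
theorem Geo.pred_mem (h : Geo De R O e) {f : Dart} (hf : f ∈ insert e O) (h0 : f ≠ e0) :
    pred De f ∈ O := by
  obtain ⟨g, hg, rfl⟩ := (h.bwd f hf).resolve_left h0
  have := h.ok g (mem_insert_of_mem hg)
  rwa [pred_succ this.1 (h.free _ this.2)]

theorem Geo.back (h : Geo De R O e) {b : Site} {i : ZMod 6} (hf : (b, i) ∈ insert e O) :
    (Wall De (b + d (i - 1)) ∧ ((b, i - 1) ∈ O ∨ (b, i) = e0)) ∨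
      (b + d (i - 1) ∈ R ∧ (b + d (i - 1), i + 1) ∈ O) := by
  by_cases h0 : (b, i) = e0
  · obtain ⟨rfl, rfl⟩ := Prod.ext_iff.1 h0
    exact Or.inl ⟨Or.inl (by decide), Or.inr rfl⟩
  have := h.pred_mem hf h0
  by_cases hw : Wall De (b + d (i - 1))
  · rw [pred, if_pos hw] at this
    exact Or.inl ⟨hw, Or.inl this⟩
  · rw [pred, if_neg hw] at this
    exact Or.inr ⟨(h.ok _ (mem_insert_of_mem this)).2, this⟩

/-- forward form: after a walked dart -/
theorem Geo.forth (h : Geo De R O e) {b : Site} {i : ZMod 6} (hf : (b, i) ∈ O) :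
    (Wall De (b + d (i + 1)) ∧ (b, i + 1) ∈ insert e O) ∨
      (b + d (i + 1) ∈ R ∧ (b + d (i + 1), i - 1) ∈ insert e O) := by
  have := (h.fwd _ hf).1
  by_cases hw : Wall De (corner (b, i))
  · rw [succ_wall hw] at this
    exact Or.inl ⟨hw, this⟩
  · rw [succ_free hw] at this
    exact Or.inr ⟨(h.dec _ hf).resolve_left hw, this⟩

/-- a closed contour has at most as many steps as the energy allows -/
theorem Geo.close (h : Geo De R O e) (he : succ De e = e0) : 2 * rc De (insert e O) ≤ en De := by
  have hs : ∀ f ∈ insert e O, succ De f ∈ insert e O := fun f hf => by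
    rcases mem_insert.1 hf with rfl | hf
    · exact he ▸ h.start
    · exact (h.fwd f hf).1
  have hi : Set.InjOn (succ De) (insert e O : Finset Dart) := fun f hf g hg a => h.inj hf hg a
  have h1 : (insert e O).image (succ De) = insert e O :=
    eq_of_subset_of_card_le (fun f hf => by
      obtain ⟨g, hg, rfl⟩ := mem_image.1 hf
      exact hs g hg) (card_image_of_injOn hi).ge
  have h2 : ∑ f ∈ insert e O, ht (succ De f).1 = ∑ f ∈ insert e O, ht f.1 := by
    conv_rhs => rw [← h1, sum_image hi]
  have h3 : 2 * rc De (insert e O) = ∑ f ∈ insert e O, term De f := by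
    rw [← sub_eq_zero, ← sum_sub_distrib] at h2
    rw [rc, mul_sum, ← sub_eq_zero, ← sum_sub_distrib]
    refine (sum_congr rfl fun f hf => ?_).trans h2
    have a := h.free _ (h.ok f hf).2
    by_cases hw : Wall De (corner f)
    · simp [succ_wall hw, term, hw]
    · simp [succ_free hw, term, hw, a, wt]
  have h4 : en De = ∑ f ∈ (De ×ˢ univ).image fun p : Site × ZMod 6 => (p.1 - d p.2, p.2),
      term De f := by
    rw [sum_image, sum_product]
    · rfl
    · rintro ⟨a, i⟩ - ⟨b, j⟩ - hab
      obtain ⟨a1, a2⟩ := Prod.ext_iff.1 hab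
      simp only at a1 a2
      subst a2
      rw [sub_left_injective a1]
  have h5 : ∑ f ∈ insert e O, term De f =
      ∑ f ∈ (insert e O).filter fun f => lsite f ∈ De, term De f := by
    rw [sum_filter]
    refine sum_congr rfl fun f hf => ?_
    split_ifs with a
    · rfl
    · exact term_zero h.base (h.ok f hf).1 a
  rw [h3, h4, h5]
  refine sum_le_sum_of_subset_of_nonneg (fun f hf => ?_) fun f hf hf' => ?_
  · exact mem_image.2 ⟨(lsite f, f.2), mem_product.2 ⟨(mem_filter.1 hf).2, mem_univ _⟩,
      by simp [lsite]⟩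
  · obtain ⟨⟨a, i⟩, ha, hf2⟩ := mem_image.1 hf
    have hl : lsite f ∈ De := by
      rw [← hf2]
      simpa [lsite] using (mem_product.1 ha).1
    rw [term]
    split_ifs with a1
    swap
    · exact le_rfl
    by_contra a2
    refine hf' (mem_filter.2 ⟨?_, hl⟩)
    rcases wt_neg (not_lt.1 fun b => a1.1 (Or.inl b)) (not_lt.1 fun b => a1.2 (Or.inl b))
      (not_le.1 a2) with rfl | rfl | rfl
    · exact h.start
    · have b1 : succ De e0 = ((0, 0), 2) := succ_wall (Or.inr hl)
      have b2 : succ De ((0, 0), 2) = ((1, 0), 1) := succ_free a1.1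
      rw [← b2, ← b1]
      exact hs _ (hs _ h.start)
    · exact absurd (Or.inr hl) (h.free _ h.root)

theorem Geo.succ_eq (h : Geo De R O e) (he : succ De e = e0) : e = ((0, 0), 0) := by
  rw [← pred_succ h.wall (h.free _ h.right), he, pred]
  exact if_pos (Or.inl (by decide))

/-- one step along the contour -/
theorem Geo.step (h : Geo De R O e) (hc : Wall De (corner e) ∨ corner e ∈ R)
    (hl : e ≠ ((0, 0), 0) ∨ en De < 2 * rc De (insert e O)) :
    Geo De R (insert e O) (succ De e) := by
  have h0 : succ De e ≠ e0 := fun a => hl.elim (fun b => b (h.succ_eq a)) fun b =>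
    absurd (h.close a) (not_le.2 b)
  refine ⟨h.free, h.base, h.root, fun f hf => ?_, fun f hf => ?_, fun hf => ?_,
    mem_insert_of_mem h.start, fun f hf => ?_, fun f hf => ?_⟩
  · rcases mem_insert.1 hf with rfl | hf
    · by_cases hw : Wall De (corner e)
      · rw [succ_wall hw]
        exact ⟨hw, h.right⟩
      · rw [succ_free hw, lsite_free]
        exact ⟨h.wall, hc.resolve_left hw⟩
    · exact h.ok f hf
  · rcases mem_insert.1 hf with rfl | hf
    · exact hc
    · exact h.dec f hf
  · obtain ⟨g, hg, a⟩ := (h.bwd _ hf).resolve_left h0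
    exact h.new (h.inj (mem_insert_of_mem hg) (mem_insert_self _ _) a ▸ hg)
  · rcases mem_insert.1 hf with rfl | hf
    · exact ⟨mem_insert_self _ _, h0⟩
    · exact ⟨mem_insert_of_mem (h.fwd f hf).1, (h.fwd f hf).2⟩
  · rcases mem_insert.1 hf with rfl | hf
    · exact Or.inr ⟨e, mem_insert_self _ _, rfl⟩
    · exact (h.bwd f hf).imp id fun ⟨g, hg, a⟩ => ⟨g, mem_insert_of_mem hg, a⟩

/-- step round the right site: the corner is wall -/
theorem Geo.turn {b : Site} {i : ZMod 6} (h : Geo De R O (b, i)) (hw : Wall De (b + d (i + 1)))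
    (hl : (b, i) ≠ ((0, 0), 0) ∨ en De < 2 * rc De O) :
    Geo De R (insert (b, i) O) (b, i + 1) ∧ rc De (insert (b, i) O) = rc De O := by
  have h1 : rc De (insert (b, i) O) = rc De O := by
    rw [rc_insert h.new, if_pos (show Wall De (corner (b, i)) from hw), add_zero]
  have := h.step (Or.inl hw) (by rwa [h1])
  rw [succ_wall (f := (b, i)) hw] at this
  exact ⟨this, h1⟩

/-- step to the corner, a right site -/
theorem Geo.go {b : Site} {i : ZMod 6} (h : Geo De R O (b, i)) (hr : b + d (i + 1) ∈ R) :
    Geo De R (insert (b, i) O) (b + d (i + 1), i - 1) ∧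
      rc De (insert (b, i) O) = rc De O + 1 := by
  have hw : ¬ Wall De (corner (b, i)) := h.free _ hr
  have := h.step (Or.inr hr) (Or.inl fun a => hw (a ▸ Or.inl (by decide)))
  rw [succ_free hw] at this
  exact ⟨this, by rw [rc_insert h.new, if_neg hw]⟩

/-- relabelling, general form: entrance at position `j`, exit at `m`, second entrance at `k`,
`A` the arc of right sites from `m` to `k` -/
theorem Geo.retro_core {x : Site} {j m k : ZMod 6} (h : Geo De R O (x + d k, k + 2)) (hx : x ∈ R)
    (hx0 : x ≠ (0, 0)) (A : Finset (ZMod 6)) (hP : (x + d j, j + 2) ∈ O) (hm : (x, m - 1) ∈ O)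
    (hent : ∀ t, (x + d t, t + 2) ∈ O → t = j)
    (hexit : ∀ t, (x, t) ∈ O → ¬ Wall De (x + d (t + 1)) → t + 1 = m)
    (hmA : m ∈ A) (hkA : k ∈ A) (hjA : j ∉ A) (hA : ∀ t ∈ A, x + d t ∈ R)
    (hA1 : ∀ t ∈ A, t ≠ m → t - 1 ∈ A) (hA2 : ∀ t ∈ A, t ≠ k → t + 1 ∈ A) :
    ∃ O', Geo (insert x De) (R.erase x) O' (x + d j, j + 3) ∧
      rc (insert x De) O' = rc De O - 3 + A.card ∧ O.card < O'.card + 6 ∧
      (∀ f ∈ O, f.1 ≠ x → f ∈ O') ∧
      ∀ f ∈ O', f ∈ O ∨ f = (x + d k, k + 2) ∨ ∃ t ∈ A, f = (x + d t, t + 3) := by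
  have hxw := h.free x hx
  have cP : ∀ t : ZMod 6, corner (x + d t, t + 2) = x := fun t => by
    have : ∀ i : ZMod 6, d i + d (i + 2 + 1) = 0 := by decide
    simp only [corner, add_assoc x, this, add_zero]
  have cP' : ∀ f : Dart, corner f = x → ∃ t, f = (x + d t, t + 2) := fun f hf => by
    refine ⟨f.2 - 2, ?_⟩
    have : ∀ i : ZMod 6, d (i + 1) + d (i - 2) = 0 := by decide
    rw [← hf, corner, add_assoc, this, add_zero, sub_add_cancel]
  have cQ : ∀ t : ZMod 6, corner (x + d t, t + 3) = x + d (t - 1) := fun t => by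
    have : ∀ i : ZMod 6, d i + d (i + 3 + 1) = d (i - 1) := by decide
    simp only [corner, add_assoc x, this]
  have lQ : ∀ t : ZMod 6, lsite (x + d t, t + 3) = x := fun t => by
    simp only [lsite, add_assoc x, d_add3, add_zero]
  have wx : Wall (insert x De) x := wall_insert.2 (Or.inl rfl)
  have sP : ∀ t : ZMod 6, succ (insert x De) (x + d t, t + 2) = (x + d t, t + 3) := fun t => by
    rw [succ_wall (by rw [cP]; exact wx)]
    congr 1
    ring
  have sQ : ∀ t ∈ A, t ≠ m →
      succ (insert x De) (x + d t, t + 3) = (x + d (t - 1), t - 1 + 3) := fun t ht hm => by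
    rw [succ_free, cQ]
    · congr 1
      ring
    · rw [cQ, wall_insert_of_ne (add_d_ne _ _)]
      exact h.free _ (hA _ (hA1 t ht hm))
  have hmw : Wall De (x + d (m - 1)) := (h.ok _ (mem_insert_of_mem hm)).1
  have sX : succ De (x, m - 1) = (x + d m, m + 3 + 1) := by
    have a : corner (x, m - 1) = x + d m := by simp [corner]
    rw [succ_free (by rw [a]; exact h.free _ (hA m hmA)), a]
    exact Prod.ext rfl ((by decide : ∀ i : ZMod 6, i - 1 - 1 = i + 3 + 1) m)
  have sM : succ (insert x De) (x + d m, m + 3) = succ De (x, m - 1) := by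
    rw [sX, succ_wall (by rw [cQ]; exact hmw.mono (subset_insert _ _))]
  have nQ : ∀ t : ZMod 6, (x + d t, t + 3) ∉ insert (x + d k, k + 2) O := fun t a =>
    hxw (lQ t ▸ (h.ok _ a).1)
  have n0 : ∀ t : ZMod 6, (x + d t, t + 3) ≠ e0 := fun t a => nQ t (a ▸ h.start)
  set Q : Finset Dart := A.image fun t => (x + d t, t + 3) with hQ
  set F : Finset Dart := (insert (x + d k, k + 2) O).filter fun f => f.1 ≠ x with hF
  have mF : ∀ f, f ∈ F ↔ f ∈ insert (x + d k, k + 2) O ∧ f.1 ≠ x := fun f => mem_filter
  have mQ : ∀ f, f ∈ Q ↔ ∃ t ∈ A, (x + d t, t + 3) = f := fun f => mem_image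
  have eF : (x + d k, k + 2) ∈ F := (mF _).2 ⟨mem_insert_self _ _, add_d_ne _ _⟩
  have dj : Disjoint F Q := disjoint_left.2 fun f a b => by
    obtain ⟨t, -, rfl⟩ := (mQ f).1 b
    exact nQ t ((mF _).1 a).1
  have hjR : x + d j ∈ R := (h.ok _ (mem_insert_of_mem hP)).2
  have sF : ∀ f ∈ O, f.1 ≠ x → corner f ≠ x → succ De f ∈ F := fun f a b c => by
    refine (mF _).2 ⟨(h.fwd f a).1, ?_⟩
    rw [succ]
    split_ifs
    · exact b
    · exact c
  refine ⟨F ∪ Q, ⟨fun b hb => ?_, mem_insert_of_mem h.base, mem_erase.2 ⟨hx0.symm, h.root⟩,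
    fun f hf => ?_, fun f hf => ?_, fun hf => ?_, ?_, fun f hf => ?_, fun f hf => ?_⟩,
    ?_, ?_, fun f a b => mem_union_left _ ((mF _).2 ⟨mem_insert_of_mem a, b⟩), fun f hf => ?_⟩
  · rw [wall_insert_of_ne (mem_erase.1 hb).1]
    exact h.free b (mem_of_mem_erase hb)
  · rcases mem_insert.1 hf with rfl | hf
    · exact ⟨by rw [lQ]; exact wx, mem_erase.2 ⟨add_d_ne _ _, hjR⟩⟩
    rcases mem_union.1 hf with a | a
    · have := h.ok f ((mF _).1 a).1
      exact ⟨this.1.mono (subset_insert _ _), mem_erase.2 ⟨((mF _).1 a).2, this.2⟩⟩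
    · obtain ⟨t, ht, rfl⟩ := (mQ f).1 a
      exact ⟨by rw [lQ]; exact wx, mem_erase.2 ⟨add_d_ne _ _, hA t ht⟩⟩
  · by_cases c : corner f = x
    · exact Or.inl (c ▸ wx)
    rcases mem_union.1 hf with a | a
    · rcases mem_insert.1 ((mF _).1 a).1 with rfl | b
      · exact absurd (cP k) c
      · exact (h.dec f b).imp (fun z => z.mono (subset_insert _ _)) fun z => mem_erase.2 ⟨c, z⟩
    · obtain ⟨t, ht, rfl⟩ := (mQ f).1 a
      by_cases b : t = m
      · exact Or.inl (by rw [cQ, b]; exact hmw.mono (subset_insert _ _))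
      · exact Or.inr (mem_erase.2 ⟨c, by rw [cQ]; exact hA _ (hA1 t ht b)⟩)
  · rcases mem_union.1 hf with a | a
    · exact nQ j ((mF _).1 a).1
    · obtain ⟨t, ht, b⟩ := (mQ _).1 a
      exact hjA (add_d_inj (Prod.ext_iff.1 b).1 ▸ ht)
  · exact mem_insert_of_mem (mem_union_left _ ((mF _).2 ⟨h.start, hx0.symm⟩))
  · rcases mem_union.1 hf with a | a
    · by_cases c : corner f = x
      · obtain ⟨t, rfl⟩ := cP' f c
        rw [sP]
        refine ⟨?_, n0 t⟩
        rcases mem_insert.1 ((mF _).1 a).1 with b | b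
        · rw [add_d_inj (Prod.ext_iff.1 b).1]
          exact mem_insert_of_mem (mem_union_right _ ((mQ _).2 ⟨k, hkA, rfl⟩))
        · rw [hent t b]
          exact mem_insert_self _ _
      · rcases mem_insert.1 ((mF _).1 a).1 with rfl | b
        · exact absurd (cP k) c
        · rw [succ_insert c]
          exact ⟨mem_insert_of_mem (mem_union_left _ (sF f b ((mF _).1 a).2 c)), (h.fwd f b).2⟩
    · obtain ⟨t, ht, rfl⟩ := (mQ f).1 a
      by_cases b : t = m
      · rw [b, sM]
        refine ⟨mem_insert_of_mem (mem_union_left _ ((mF _).2 ⟨(h.fwd _ hm).1, ?_⟩)),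
          (h.fwd _ hm).2⟩
        rw [sX]
        exact add_d_ne _ _
      · rw [sQ t ht b]
        exact ⟨mem_insert_of_mem (mem_union_right _ ((mQ _).2 ⟨_, hA1 t ht b, rfl⟩)), n0 _⟩
  · rcases mem_insert.1 hf with rfl | hf
    · exact Or.inr ⟨_, mem_union_left _ ((mF _).2 ⟨mem_insert_of_mem hP, add_d_ne _ _⟩), sP j⟩
    rcases mem_union.1 hf with a | a
    · refine (h.bwd f ((mF _).1 a).1).imp id fun ⟨g, hg, b⟩ => ?_
      have f1 := ((mF _).1 a).2
      by_cases c : g.1 = x
      · obtain ⟨y, t⟩ := g
        simp only at c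
        subst c
        have hw : ¬ Wall De (corner (y, t)) := fun z => f1 (by rw [← b, succ_wall z])
        have := hexit t hg hw
        refine ⟨_, mem_union_right _ ((mQ _).2 ⟨m, hmA, rfl⟩), ?_⟩
        rw [sM, ← b, ← this, add_sub_cancel_right]
      · have c2 : corner g ≠ x := fun z => f1 (by rw [← b, succ_free (z ▸ hxw), z])
        exact ⟨g, mem_union_left _ ((mF _).2 ⟨mem_insert_of_mem hg, c⟩), (succ_insert c2).trans b⟩
    · obtain ⟨t, ht, rfl⟩ := (mQ f).1 a
      by_cases b : t = k
      · exact Or.inr ⟨_, mem_union_left _ eF, by rw [sP, b]⟩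
      · have b1 := hA2 t ht b
        have b2 : t + 1 ≠ m := fun z =>
          h.free _ (hA t ht) (by rw [← z, add_sub_cancel_right] at hmw; exact hmw)
        exact Or.inr ⟨_, mem_union_right _ ((mQ _).2 ⟨_, b1, rfl⟩), by
          rw [sQ _ b1 b2, add_sub_cancel_right]⟩
  · have r1 : rc (insert x De) Q = A.card - 1 := by
      rw [rc, hQ, sum_image fun s _ t _ a => add_d_inj (Prod.ext_iff.1 a).1,
        ← add_sum_erase _ _ hmA, if_pos (by rw [cQ]; exact hmw.mono (subset_insert _ _)),
        sum_congr rfl (g := fun _ => 1) fun t ht => if_neg (by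
          rw [cQ, wall_insert_of_ne (add_d_ne _ _)]
          exact h.free _ (hA _ (hA1 t (mem_of_mem_erase ht) (mem_erase.1 ht).1)))]
      have := card_erase_add_one hmA
      simp only [sum_const, nsmul_eq_mul, mul_one]
      omega
    have r2 : rc (insert x De) F = rc De O - 2 := by
      rw [rc, hF, sum_filter, sum_insert h.new, if_pos (add_d_ne _ _),
        if_pos (by rw [cP]; exact wx), zero_add, rc]
      have : ∀ f ∈ O, (if f.1 ≠ x then (if Wall (insert x De) (corner f) then (0 : ℤ) else 1)
          else 0) = (if Wall De (corner f) then 0 else 1) - (if f = (x + d j, j + 2) then 1 else 0)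
          - if f = (x, m - 1) then 1 else 0 := fun f hf => by
        by_cases c : f.1 = x
        · obtain ⟨y, t⟩ := f
          simp only at c
          subst c
          rw [if_neg (by simp), if_neg (fun z : (y, t) = (y + d j, j + 2) =>
            add_d_ne _ _ (Prod.ext_iff.1 z).1.symm)]
          by_cases hw : Wall De (corner (y, t))
          · rw [if_pos hw, if_neg]
            · rfl
            · intro z
              rw [z] at hw
              exact h.free _ (hA m hmA) (by simpa [corner] using hw)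
          · rw [if_neg hw, if_pos (by rw [← hexit t hf hw, add_sub_cancel_right])]
            rfl
        · rw [if_pos c, if_neg (fun z : f = (x, m - 1) => c (by rw [z]))]
          by_cases c2 : corner f = x
          · obtain ⟨t, rfl⟩ := cP' f c2
            rw [c2, if_pos wx, if_neg hxw, hent t hf, if_pos rfl]
            rfl
          · rw [if_neg (fun z : f = (x + d j, j + 2) => c2 (z ▸ cP j))]
            simp only [wall_insert_of_ne c2, sub_zero]
      rw [sum_congr rfl this]
      simp only [sum_sub_distrib, sum_ite_eq', hP, hm, if_true]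
      ring
    rw [rc, sum_union dj, ← rc, ← rc, r1, r2]
    ring
  · have a1 := card_filter_add_card_filter_not (s := insert (x + d k, k + 2) O)
      (fun f : Dart => f.1 ≠ x)
    have a2 : ((insert (x + d k, k + 2) O).filter fun f : Dart => ¬ f.1 ≠ x).card ≤ 6 := by
      refine (card_le_card_of_injOn (t := univ) Prod.snd (fun _ _ => mem_univ _) ?_).trans
        (by simp)
      intro f hf g hg a
      have b1 := (mem_filter.1 (mem_coe.1 hf)).2
      have b2 := (mem_filter.1 (mem_coe.1 hg)).2
      exact Prod.ext ((not_not.1 b1).trans (not_not.1 b2).symm) a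
    have a3 : F.card ≤ (F ∪ Q).card := card_le_card subset_union_left
    rw [card_insert_of_notMem h.new, ← hF] at a1
    omega
  · rcases mem_union.1 hf with a | a
    · exact (mem_insert.1 ((mF _).1 a).1).elim (fun b => Or.inr (Or.inl b)) Or.inl
    · obtain ⟨t, ht, rfl⟩ := (mQ f).1 a
      exact Or.inr (Or.inr ⟨t, ht, rfl⟩)

theorem Geo.back' (h : Geo De R O e) {x : Site} (hx0 : x ≠ (0, 0)) {i : ZMod 6}
    (hf : (x, i + 1) ∈ insert e O) :
    (Wall De (x + d i) ∧ (x, i) ∈ O) ∨ (x + d i ∈ R ∧ (x + d i, i + 2) ∈ O) := by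
  have := h.back hf
  rw [add_sub_cancel_right, show i + 1 + 1 = i + 2 by ring] at this
  exact this.imp (fun a => ⟨a.1, a.2.resolve_right fun b => hx0 (Prod.ext_iff.1 b).1⟩) id

/-- the ledger of the contour: twice the steps minus the energy -/
def led (De : Finset Site) (O : Finset Dart) : ℤ := 2 * rc De O - en De

theorem led_init : led {(-1, 1)} ∅ = 4 := by simp [led, rc, en_init]

theorem Geo.led_absorb (h : Geo De R O e) {x : Site} (hx : x ∉ R) (hw : ¬ Wall De x) :
    led (insert x De) O = led De O - need De x := by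
  rw [led, led, h.rc_absorb hx hw, en_insert hw h.base]
  ring

/-- relabelling of the right site `x`, entered first from position `j` and now from `j + 2` -/
theorem Geo.retro2 {x : Site} {j : ZMod 6} (h : Geo De R O (x + d (j + 2), j + 4)) (hx : x ∈ R)
    (hx0 : x ≠ (0, 0)) (hj : (x, j + 1) ∈ O) (hb : x + d j ∈ R)
    (h4 : ¬ (x + d (j + 4) ∈ R ∧ Wall De (x + d (j + 5)))) :
    ∃ O', Geo (insert x De) (R.erase x) O' (x + d j, j + 3) ∧
      led De O + (if Wall De (x + d (j + 4)) then 2 else 0) ≤ led (insert x De) O' ∧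
      O.card < O'.card + 6 ∧ (∀ f ∈ O, f.1 ≠ x → f ∈ O') ∧
      ∀ f ∈ O', f ∈ O ∨ f = (x + d (j + 2), j + 4) ∨ f = (x + d (j + 2), j + 5) := by
  have w0 := h.free _ hb
  have w1 : Wall De (x + d (j + 1)) := (h.ok _ (mem_insert_of_mem hj)).1
  have r2 : x + d (j + 2) ∈ R := h.right
  have w2 := h.free _ r2
  have lP : ∀ t : ZMod 6, lsite (x + d t, t + 2) = x + d (t + 1) := fun t => by
    rw [lsite, add_assoc, d_add]
  have e4 : j + 2 + 2 = j + 4 := by ring
  have w3 : Wall De (x + d (j + 3)) := by
    have := lP (j + 2)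
    rw [e4, show j + 2 + 1 = j + 3 by ring] at this
    exact this ▸ h.wall
  have hP := ((h.back' hx0 (mem_insert_of_mem hj)).resolve_left fun a => w0 a.1).2
  have n3 : (x, j + 2 + 1) ∉ O := fun a =>
    (h.back' hx0 (mem_insert_of_mem a)).elim (fun b => w2 b.1) fun b => h.new (e4 ▸ b.2)
  rw [show j + 2 + 1 = j + 3 by ring] at n3
  have n4 : (x, j + 3 + 1) ∉ O := fun a =>
    (h.back' hx0 (mem_insert_of_mem a)).elim (fun b => n3 b.2) fun b => h.free _ b.1 w3
  rw [show j + 3 + 1 = j + 4 by ring] at n4
  have n5 : (x, j + 4 + 1) ∉ O := fun a =>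
    (h.back' hx0 (mem_insert_of_mem a)).elim (fun b => n4 b.2) fun b =>
      h4 ⟨b.1, by
        have := (h.ok _ (mem_insert_of_mem a)).1
        rwa [lsite, show j + 4 + 1 = j + 5 by ring] at this⟩
  rw [show j + 4 + 1 = j + 5 by ring] at n5
  obtain ⟨O', a1, a2, a3, a4, a5⟩ := Geo.retro_core (j := j) (m := j + 2) (k := j + 2)
    (e4 ▸ h) hx hx0 {j + 2} hP (by rwa [show j + 2 - 1 = j + 1 by ring])
    (fun t ht => by
      have b := h.ok _ (mem_insert_of_mem ht)
      rw [lP] at b
      rcases six_cases j t with rfl | rfl | rfl | rfl | rfl | rfl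
      · rfl
      · exact absurd w1 (h.free _ b.2)
      · exact absurd (e4 ▸ ht) h.new
      · exact absurd w3 (h.free _ b.2)
      · exact absurd ⟨b.2, by rw [show j + 5 = j + 4 + 1 by ring]; exact b.1⟩ h4
      · exact absurd (by rw [(by decide : ∀ i : ZMod 6, i = i + 5 + 1) j]; exact b.1) w0)
    (fun t ht _ => by
      have b := (h.ok _ (mem_insert_of_mem ht)).1
      rcases six_cases j t with rfl | rfl | rfl | rfl | rfl | rfl
      · exact absurd b w0
      · ring
      · exact absurd b w2
      · exact absurd ht n3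
      · exact absurd ht n4
      · exact absurd ht n5)
    (mem_singleton_self _) (mem_singleton_self _)
    (by rw [mem_singleton]; exact (by decide : ∀ i : ZMod 6, ¬ i = i + 2) j)
    (fun t ht => mem_singleton.1 ht ▸ r2) (fun t ht a => absurd (mem_singleton.1 ht) a)
    (fun t ht a => absurd (mem_singleton.1 ht) a)
  refine ⟨O', a1, ?_, a3, a4, fun f hf => (a5 f hf).imp id fun b => b.imp (e4 ▸ id) ?_⟩
  · rw [led, led, a2, en_insert (h.free _ hx) h.base, need_eq De x j]
    simp only [pr, w0, w1, w2, w3, if_true, if_false, card_singleton]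
    split_ifs <;> omega
  · rintro ⟨t, ht, rfl⟩
    rw [mem_singleton.1 ht, show j + 2 + 3 = j + 5 by ring]

/-- relabelling of the right site `x`, entered first from position `j` and now from `j + 3` -/
theorem Geo.retro3 {x : Site} {j : ZMod 6} (h : Geo De R O (x + d (j + 3), j + 5)) (hx : x ∈ R)
    (hx0 : x ≠ (0, 0)) (hj : (x, j + 1) ∈ O) (hb : x + d j ∈ R) :
    ∃ O', Geo (insert x De) (R.erase x) O' (x + d j, j + 3) ∧
      led De O + 2 ≤ led (insert x De) O' ∧
      O.card < O'.card + 6 ∧ (∀ f ∈ O, f.1 ≠ x → f ∈ O') ∧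
      ∀ f ∈ O', f ∈ O ∨ f = (x + d (j + 3), j + 5) ∨ f = (x + d (j + 3), j) ∨
        (x + d (j + 2) ∈ R ∧ f = (x + d (j + 2), j + 5)) := by
  have w0 := h.free _ hb
  have w1 : Wall De (x + d (j + 1)) := (h.ok _ (mem_insert_of_mem hj)).1
  have r3 : x + d (j + 3) ∈ R := h.right
  have w3 := h.free _ r3
  have lP : ∀ t : ZMod 6, lsite (x + d t, t + 2) = x + d (t + 1) := fun t => by
    rw [lsite, add_assoc, d_add]
  have e5 : j + 3 + 2 = j + 5 := by ring
  have e6 : j + 3 + 3 = j := (by decide : ∀ i : ZMod 6, i + 3 + 3 = i) j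
  have w4 : Wall De (x + d (j + 4)) := by
    have := lP (j + 3)
    rw [e5, show j + 3 + 1 = j + 4 by ring] at this
    exact this ▸ h.wall
  have hP := ((h.back' hx0 (mem_insert_of_mem hj)).resolve_left fun a => w0 a.1).2
  have n4 : (x, j + 3 + 1) ∉ O := fun a =>
    (h.back' hx0 (mem_insert_of_mem a)).elim (fun b => w3 b.1) fun b => h.new (e5 ▸ b.2)
  rw [show j + 3 + 1 = j + 4 by ring] at n4
  have n5 : (x, j + 4 + 1) ∉ O := fun a =>
    (h.back' hx0 (mem_insert_of_mem a)).elim (fun b => n4 b.2) fun b => h.free _ b.1 w4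
  rw [show j + 4 + 1 = j + 5 by ring] at n5
  have hent : ∀ t, (x + d t, t + 2) ∈ O → t ≠ j + 2 → t = j := fun t ht h2 => by
    have b := h.ok _ (mem_insert_of_mem ht)
    rw [lP] at b
    rcases six_cases j t with rfl | rfl | rfl | rfl | rfl | rfl
    · rfl
    · exact absurd w1 (h.free _ b.2)
    · exact absurd rfl h2
    · exact absurd (e5 ▸ ht) h.new
    · exact absurd w4 (h.free _ b.2)
    · exact absurd (by rw [(by decide : ∀ i : ZMod 6, i = i + 5 + 1) j]; exact b.1) w0
  have hent' : ∀ t, (x + d t, t + 2) ∈ O → t = j := fun t ht => hent t ht <| by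
    rintro rfl
    have b := (h.ok _ (mem_insert_of_mem ht)).1
    rw [lP, show j + 2 + 1 = j + 3 by ring] at b
    exact w3 b
  have e2 : j + 1 + 1 = j + 2 := by ring
  rcases h.forth hj with ⟨w2, b2⟩ | ⟨r2, -⟩
  · rw [e2] at w2 b2
    have b3 : (x, j + 2) ∈ O := (mem_insert.1 b2).resolve_left fun z =>
      add_d_ne _ _ (Prod.ext_iff.1 z).1.symm
    obtain ⟨O', a1, a2, a3, a4, a5⟩ := Geo.retro_core (j := j) (m := j + 3) (k := j + 3)
      (e5 ▸ h) hx hx0 {j + 3} hP (by rwa [show j + 3 - 1 = j + 2 by ring]) hent'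
      (fun t ht hw => by
        have b := (h.ok _ (mem_insert_of_mem ht)).1
        rcases six_cases j t with rfl | rfl | rfl | rfl | rfl | rfl
        · exact absurd b w0
        · exact absurd (e2 ▸ w2) hw
        · ring
        · exact absurd b w3
        · exact absurd ht n4
        · exact absurd ht n5)
      (mem_singleton_self _) (mem_singleton_self _)
      (by rw [mem_singleton]; exact (by decide : ∀ i : ZMod 6, ¬ i = i + 3) j)
      (fun t ht => mem_singleton.1 ht ▸ r3) (fun t ht a => absurd (mem_singleton.1 ht) a)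
      (fun t ht a => absurd (mem_singleton.1 ht) a)
    refine ⟨O', a1, ?_, a3, a4, fun f hf => (a5 f hf).imp id fun b => b.imp (e5 ▸ id) ?_⟩
    · rw [led, led, a2, en_insert (h.free _ hx) h.base, need_eq De x j]
      simp only [pr, w0, w1, w2, w3, w4, if_true, if_false, card_singleton]
      split_ifs <;> omega
    · rintro ⟨t, ht, rfl⟩
      rw [mem_singleton.1 ht, e6]
      exact Or.inl rfl
  · rw [e2] at r2
    have w2 := h.free _ r2
    have ne : j + 2 ≠ j + 3 := (by decide : ∀ i : ZMod 6, i + 2 ≠ i + 3) j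
    obtain ⟨O', a1, a2, a3, a4, a5⟩ := Geo.retro_core (j := j) (m := j + 2) (k := j + 3)
      (e5 ▸ h) hx hx0 {j + 2, j + 3} hP (by rwa [show j + 2 - 1 = j + 1 by ring]) hent'
      (fun t ht hw => by
        have b := (h.ok _ (mem_insert_of_mem ht)).1
        rcases six_cases j t with rfl | rfl | rfl | rfl | rfl | rfl
        · exact absurd b w0
        · ring
        · exact absurd b w2
        · exact absurd b w3
        · exact absurd ht n4
        · exact absurd ht n5)
      (by simp) (by simp) ((by decide : ∀ i : ZMod 6, i ∉ ({i + 2, i + 3} : Finset _)) j)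
      (fun t ht => by
        rcases mem_insert.1 ht with rfl | ht
        · exact r2
        · exact mem_singleton.1 ht ▸ r3)
      (fun t ht a => by
        rw [mem_singleton.1 ((mem_insert.1 ht).resolve_left a), show j + 3 - 1 = j + 2 by ring]
        exact mem_insert_self _ _)
      (fun t ht a => by
        rw [(mem_insert.1 ht).resolve_right fun z => a (mem_singleton.1 z),
          show j + 2 + 1 = j + 3 by ring]
        simp)
    refine ⟨O', a1, ?_, a3, a4, fun f hf => (a5 f hf).imp id fun b => b.imp (e5 ▸ id) ?_⟩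
    · rw [led, led, a2, en_insert (h.free _ hx) h.base, need_eq De x j, card_pair ne]
      simp only [pr, w0, w1, w2, w3, w4, if_true, if_false]
      split_ifs <;> omega
    · rintro ⟨t, ht, rfl⟩
      rcases mem_insert.1 ht with rfl | ht
      · exact Or.inr ⟨r2, by rw [show j + 2 + 3 = j + 5 by ring]⟩
      · rw [mem_singleton.1 ht, e6]
        exact Or.inl rfl

end Pool.Agent.MP_6bef34_co.H7
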