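import Pool.Agent.MP_6bef34_co.H60.Defs
import Pool.Agent.MP_6bef34_co.H7.Geo

/-! The game on `ℤ^4`: lost positions, replies of White, lines and the sites they meet. -/

namespace Pool.Agent.MP_6bef34_co.H7

open Finset H60

/-- squares of the board; coordinate `3` is the level -/
abbrev Pt : Type := Fin 4 → ℤ

/-- White, to move, leaves the king without a move within `n` turns -/
def Win : ℕ → Pt → Finset Pt → Prop
  | 0, _, _ => False
  | n + 1, k, P => ∃ P', WhiteMove k P P' ∧ ∀ k', KingMove k P' k' → Win n k' (P'.erase k')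

/-- the king is to move and every move loses within `n` turns -/
def Lost (n : ℕ) (k : Pt) (Q : Finset Pt) : Prop :=
  ∀ k', KingMove k Q k' → Win n k' (Q.erase k')

theorem Win.succ : ∀ {n : ℕ} {k : Pt} {P : Finset Pt}, Win n k P → Win (n + 1) k P
  | 0, _, _, h => h.elim
  | _ + 1, _, _, ⟨P', h, h'⟩ => ⟨P', h, fun k' a => (h' k' a).succ⟩

theorem Win.mono {n m : ℕ} {k : Pt} {P : Finset Pt} (h : Win n k P) (hm : n ≤ m) : Win m k P := by
  induction hm with
  | refl => exact h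
  | step _ ih => exact ih.succ

/-- a position that is never won has, after any move of White, a move to such a position -/
theorem escape {k : Pt} {P P' : Finset Pt} (h : ∀ n, ¬ Win n k P) (hw : WhiteMove k P P') :
    ∃ k', KingMove k P' k' ∧ ∀ n, ¬ Win n k' (P'.erase k') := by
  by_contra hc
  push Not at hc
  choose! g hg using hc
  refine h ((Fintype.piFinset fun i => Icc (k i - 1) (k i + 1)).sup g + 1)
    ⟨P', hw, fun k' a => (hg k' a).mono (le_sup ?_)⟩
  refine Fintype.mem_piFinset.2 fun i => ?_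
  have := abs_le.1 (a.2.1 i)
  rw [mem_Icc]
  omega

/-- the squares differ in exactly one coordinate -/
def Ham1 (r x : Pt) : Prop := ∃ i, r i ≠ x i ∧ ∀ j, j ≠ i → r j = x j

/-- no rook on a line through the square (a rook on the square itself is captured) -/
def Safe (Q : Finset Pt) (x : Pt) : Prop := ∀ r ∈ Q, ¬ Ham1 r x

/-- one king step -/
def Near (k k' : Pt) : Prop := k' ≠ k ∧ ∀ i, |k' i - k i| ≤ 1

theorem ham1_iff {r x : Pt} : Ham1 r x ↔
    (r 0 ≠ x 0 ∧ r 1 = x 1 ∧ r 2 = x 2 ∧ r 3 = x 3) ∨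
    (r 0 = x 0 ∧ r 1 ≠ x 1 ∧ r 2 = x 2 ∧ r 3 = x 3) ∨
    (r 0 = x 0 ∧ r 1 = x 1 ∧ r 2 ≠ x 2 ∧ r 3 = x 3) ∨
    (r 0 = x 0 ∧ r 1 = x 1 ∧ r 2 = x 2 ∧ r 3 ≠ x 3) := by
  simp only [Ham1, Fin.exists_fin_succ, Fin.forall_fin_succ]
  simp
  tauto

theorem pt_ext {r x : Pt} : r = x ↔ r 0 = x 0 ∧ r 1 = x 1 ∧ r 2 = x 2 ∧ r 3 = x 3 := by
  refine ⟨fun h => by simp [h], fun h => funext fun i => ?_⟩
  fin_cases i
  exacts [h.1, h.2.1, h.2.2.1, h.2.2.2]

theorem near_iff {k x : Pt} : Near k x ↔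
    ¬ (x 0 = k 0 ∧ x 1 = k 1 ∧ x 2 = k 2 ∧ x 3 = k 3) ∧ (-1 ≤ x 0 - k 0 ∧ x 0 - k 0 ≤ 1) ∧
    (-1 ≤ x 1 - k 1 ∧ x 1 - k 1 ≤ 1) ∧ (-1 ≤ x 2 - k 2 ∧ x 2 - k 2 ≤ 1) ∧
    (-1 ≤ x 3 - k 3 ∧ x 3 - k 3 ≤ 1) := by
  simp only [Near, ne_eq, pt_ext, abs_le, Fin.forall_fin_succ]
  simp

theorem Lost.move {n : ℕ} {k k' : Pt} {Q : Finset Pt} (h : Lost n k Q) (hn : Near k k')
    (hs : Safe Q k') : ∃ m r r', n = m + 1 ∧ r ∈ Q.erase k' ∧ r' ∉ Q.erase k' ∧ r' ≠ k' ∧
      Ham1 r r' ∧ Lost m k' (insert r' ((Q.erase k').erase r)) := by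
  have h1 : KingMove k Q k' := ⟨hn.1, hn.2, fun ⟨r, hr, i, a, b, _⟩ =>
    hs r (mem_of_mem_erase hr) ⟨i, a, b⟩⟩
  have h2 := h k' h1
  rcases n with _ | m
  · exact h2.elim
  obtain ⟨P', ⟨-, r, hr, r', a1, a2, ⟨i, a3, a4, -⟩, rfl⟩, h3⟩ := h2
  exact ⟨m, r, r', rfl, hr, a1, a2, ⟨i, a3, a4⟩, h3⟩

/-- the site where the line of the rook in direction `j` meets the plane of sites -/
def site (r : Pt) (j : Fin 3) : Site :=
  if j = 0 then (-r 1 - r 2, r 1) else if j = 1 then (r 0, -r 0 - r 2) else (r 0, r 1)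

@[simp] theorem site_zero (r : Pt) : site r 0 = (-r 1 - r 2, r 1) := rfl
@[simp] theorem site_one (r : Pt) : site r 1 = (r 0, -r 0 - r 2) := rfl
@[simp] theorem site_two (r : Pt) : site r 2 = (r 0, r 1) := rfl

theorem three_cases (j : Fin 3) : j = 0 ∨ j = 1 ∨ j = 2 := by revert j; decide

/-- the square above a site on level `v` -/
def up (s : Site) (v : ℤ) : Pt := ![s.1, s.2, -s.1 - s.2, v]

/-- offset of the centre of the triangle `(b, b + d i, b + d (i+1))` -/
def tv (i : ZMod 6) : ℤ × ℤ × ℤ :=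
  if i = 0 then (-1, 0, 0) else if i = 1 then (0, 1, 0) else if i = 2 then (0, 0, -1)
  else if i = 3 then (1, 0, 0) else if i = 4 then (0, -1, 0) else (0, 0, 1)

/-- the square above the triangle `(b, b + d i, b + d (i+1))` on level `v` -/
def tri (b : Site) (i : ZMod 6) (v : ℤ) : Pt :=
  ![b.1 + (tv i).1, b.2 + (tv i).2.1, -b.1 - b.2 + (tv i).2.2, v]

/-- direction of the line from `b` through the triangle `(b, i)` -/
def dr (i : ZMod 6) : Fin 3 := if i = 0 ∨ i = 3 then 0 else if i = 1 ∨ i = 4 then 1 else 2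

@[simp] theorem up_0 (s : Site) (v : ℤ) : up s v 0 = s.1 := rfl
@[simp] theorem up_1 (s : Site) (v : ℤ) : up s v 1 = s.2 := rfl
@[simp] theorem up_2 (s : Site) (v : ℤ) : up s v 2 = -s.1 - s.2 := rfl
@[simp] theorem up_3 (s : Site) (v : ℤ) : up s v 3 = v := rfl
@[simp] theorem tri_0 (b : Site) (i : ZMod 6) (v : ℤ) : tri b i v 0 = b.1 + (tv i).1 := rfl
@[simp] theorem tri_1 (b : Site) (i : ZMod 6) (v : ℤ) : tri b i v 1 = b.2 + (tv i).2.1 := rfl
@[simp] theorem tri_2 (b : Site) (i : ZMod 6) (v : ℤ) :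
    tri b i v 2 = -b.1 - b.2 + (tv i).2.2 := rfl
@[simp] theorem tri_3 (b : Site) (i : ZMod 6) (v : ℤ) : tri b i v 3 = v := rfl

theorem zmod_cases (i : ZMod 6) : i = 0 ∨ i = 1 ∨ i = 2 ∨ i = 3 ∨ i = 4 ∨ i = 5 := by
  revert i; decide

/-- all constants that belong to the direction `i` -/
theorem table (i : ZMod 6) :
    (d i = (-1, 0) ∧ d (i + 1) = (-1, 1) ∧ d (i + 2) = (0, 1) ∧ d (i + 3) = (1, 0) ∧
      d (i + 4) = (1, -1) ∧ d (i + 5) = (0, -1) ∧ tv i = (-1, 0, 0) ∧ tv (i + 1) = (0, 1, 0) ∧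
      tv (i + 2) = (0, 0, -1) ∧ tv (i + 3) = (1, 0, 0) ∧ tv (i + 4) = (0, -1, 0) ∧
      tv (i + 5) = (0, 0, 1) ∧ dr i = 0 ∧ dr (i + 1) = 1 ∧ dr (i + 2) = 2) ∨
    (d i = (-1, 1) ∧ d (i + 1) = (0, 1) ∧ d (i + 2) = (1, 0) ∧ d (i + 3) = (1, -1) ∧
      d (i + 4) = (0, -1) ∧ d (i + 5) = (-1, 0) ∧ tv i = (0, 1, 0) ∧ tv (i + 1) = (0, 0, -1) ∧
      tv (i + 2) = (1, 0, 0) ∧ tv (i + 3) = (0, -1, 0) ∧ tv (i + 4) = (0, 0, 1) ∧
      tv (i + 5) = (-1, 0, 0) ∧ dr i = 1 ∧ dr (i + 1) = 2 ∧ dr (i + 2) = 0) ∨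
    (d i = (0, 1) ∧ d (i + 1) = (1, 0) ∧ d (i + 2) = (1, -1) ∧ d (i + 3) = (0, -1) ∧
      d (i + 4) = (-1, 0) ∧ d (i + 5) = (-1, 1) ∧ tv i = (0, 0, -1) ∧ tv (i + 1) = (1, 0, 0) ∧
      tv (i + 2) = (0, -1, 0) ∧ tv (i + 3) = (0, 0, 1) ∧ tv (i + 4) = (-1, 0, 0) ∧
      tv (i + 5) = (0, 1, 0) ∧ dr i = 2 ∧ dr (i + 1) = 0 ∧ dr (i + 2) = 1) ∨
    (d i = (1, 0) ∧ d (i + 1) = (1, -1) ∧ d (i + 2) = (0, -1) ∧ d (i + 3) = (-1, 0) ∧
      d (i + 4) = (-1, 1) ∧ d (i + 5) = (0, 1) ∧ tv i = (1, 0, 0) ∧ tv (i + 1) = (0, -1, 0) ∧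
      tv (i + 2) = (0, 0, 1) ∧ tv (i + 3) = (-1, 0, 0) ∧ tv (i + 4) = (0, 1, 0) ∧
      tv (i + 5) = (0, 0, -1) ∧ dr i = 0 ∧ dr (i + 1) = 1 ∧ dr (i + 2) = 2) ∨
    (d i = (1, -1) ∧ d (i + 1) = (0, -1) ∧ d (i + 2) = (-1, 0) ∧ d (i + 3) = (-1, 1) ∧
      d (i + 4) = (0, 1) ∧ d (i + 5) = (1, 0) ∧ tv i = (0, -1, 0) ∧ tv (i + 1) = (0, 0, 1) ∧
      tv (i + 2) = (-1, 0, 0) ∧ tv (i + 3) = (0, 1, 0) ∧ tv (i + 4) = (0, 0, -1) ∧
      tv (i + 5) = (1, 0, 0) ∧ dr i = 1 ∧ dr (i + 1) = 2 ∧ dr (i + 2) = 0) ∨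
    (d i = (0, -1) ∧ d (i + 1) = (-1, 0) ∧ d (i + 2) = (-1, 1) ∧ d (i + 3) = (0, 1) ∧
      d (i + 4) = (1, 0) ∧ d (i + 5) = (1, -1) ∧ tv i = (0, 0, 1) ∧ tv (i + 1) = (-1, 0, 0) ∧
      tv (i + 2) = (0, 1, 0) ∧ tv (i + 3) = (0, 0, -1) ∧ tv (i + 4) = (1, 0, 0) ∧
      tv (i + 5) = (0, -1, 0) ∧ dr i = 2 ∧ dr (i + 1) = 0 ∧ dr (i + 2) = 1) := by
  rcases zmod_cases i with rfl | rfl | rfl | rfl | rfl | rfl
  · left
    (repeat' apply And.intro) <;> decide
  · right; left
    (repeat' apply And.intro) <;> decide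
  · right; right; left
    (repeat' apply And.intro) <;> decide
  · right; right; right; left
    (repeat' apply And.intro) <;> decide
  · right; right; right; right; left
    (repeat' apply And.intro) <;> decide
  · right; right; right; right; right
    (repeat' apply And.intro) <;> decide

theorem dr_add3 (i : ZMod 6) : dr (i + 3) = dr i := by revert i; decide

/-- the triangle seen from its left site -/
theorem tri_left (b : Site) (i : ZMod 6) (v : ℤ) : tri (b + d i) (i + 2) v = tri b i v := by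
  rcases table i with a | a | a | a | a | a <;> simp [pt_ext, a] <;> omega

/-- the triangle seen from its corner -/
theorem tri_corner (b : Site) (i : ZMod 6) (v : ℤ) :
    tri (b + d (i + 1)) (i + 4) v = tri b i v := by
  rcases table i with a | a | a | a | a | a <;> simp [pt_ext, a] <;> omega

/-- the rook stands above the site -/
def Col (r : Pt) (s : Site) : Prop := r = up s (r 3)

/-- the rook stands above the triangle -/
def ColT (r : Pt) (b : Site) (i : ZMod 6) : Prop := r = tri b i (r 3)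

theorem col_iff {r : Pt} {s : Site} : Col r s ↔ ∀ j, site r j = s := by
  simp only [Col, pt_ext, Fin.forall_fin_succ, Prod.ext_iff]
  simp
  omega

theorem col_of_two {r : Pt} {s : Site} {j k : Fin 3} (hjk : j ≠ k) (h1 : site r j = s)
    (h2 : site r k = s) : Col r s := by
  rcases three_cases j with rfl | rfl | rfl <;> rcases three_cases k with rfl | rfl | rfl <;>
    simp [Col, pt_ext, Prod.ext_iff] at * <;> omega

theorem colT_iff {r : Pt} {b : Site} {i : ZMod 6} : ColT r b i ↔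
    site r (dr i) = b ∧ site r (dr (i + 2)) = b + d i ∧ site r (dr (i + 1)) = b + d (i + 1) := by
  rcases table i with a | a | a | a | a | a <;> simp [ColT, pt_ext, Prod.ext_iff, a] <;> omega

/-- who attacks the square above a site -/
theorem ham1_up {r : Pt} {s : Site} {v : ℤ} : Ham1 r (up s v) ↔
    (r 3 = v ∧ ¬ Col r s ∧ ∃ j, site r j = s) ∨ (Col r s ∧ r 3 ≠ v) := by
  simp only [ham1_iff, Col, pt_ext, Fin.exists_fin_succ, Prod.ext_iff]
  simp
  omega

/-- who attacks the square above a triangle -/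
theorem ham1_tri {r : Pt} {b : Site} {i : ZMod 6} {v : ℤ} : Ham1 r (tri b i v) ↔
    (r 3 = v ∧ ¬ ColT r b i ∧ (site r (dr i) = b ∨ site r (dr (i + 2)) = b + d i ∨
      site r (dr (i + 1)) = b + d (i + 1))) ∨ (ColT r b i ∧ r 3 ≠ v) := by
  rcases table i with a | a | a | a | a | a <;>
    simp [ham1_iff, ColT, pt_ext, Prod.ext_iff, a] <;> omega

/-- a rook with lines through two adjacent sites stands above one of the two triangles -/
theorem two_sites {r : Pt} {b : Site} {i : ZMod 6} {j k : Fin 3} (h1 : site r j = b + d i)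
    (h2 : site r k = b + d (i + 1)) : ColT r b i ∨ ColT r (b + d i + d (i + 1)) (i + 3) := by
  rcases table i with a | a | a | a | a | a <;>
    rcases three_cases j with rfl | rfl | rfl <;> rcases three_cases k with rfl | rfl | rfl <;>
    simp [ColT, pt_ext, Prod.ext_iff, a] at * <;> omega

/-- no rook has lines through two corners at distance two round a site -/
theorem two_sites_far {r : Pt} {b : Site} {i : ZMod 6} {j k : Fin 3} (h1 : site r j = b + d i)
    (h2 : site r k = b + d (i + 2)) : False := by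
  rcases table i with a | a | a | a | a | a <;>
    rcases three_cases j with rfl | rfl | rfl <;> rcases three_cases k with rfl | rfl | rfl <;>
    simp [Prod.ext_iff, a] at * <;> omega

theorem near_up_up (b : Site) (i : ZMod 6) {w v : ℤ} (h : |v - w| ≤ 1) :
    Near (up b w) (up (b + d i) v) := by
  rw [abs_le] at h
  rcases table i with a | a | a | a | a | a <;> simp [near_iff, a] <;> omega

theorem near_up_lev (b : Site) {w v : ℤ} (h : |v - w| = 1) : Near (up b w) (up b v) := by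
  have := abs_eq (a := v - w) (b := 1) (by norm_num)
  simp [near_iff]
  omega

theorem near_up_tri (b : Site) (i : ZMod 6) {w v : ℤ} (h : |v - w| ≤ 1) :
    Near (up b w) (tri b i v) := by
  rw [abs_le] at h
  rcases table i with a | a | a | a | a | a <;> simp [near_iff, a] <;> omega

/-- the far triangle -/
theorem near_up_far (b : Site) (i : ZMod 6) {w v : ℤ} (h : |v - w| ≤ 1) :
    Near (up b w) (tri (b + d i + d (i + 1)) (i + 3) v) := by
  rw [abs_le] at h
  rcases table i with a | a | a | a | a | a <;> simp [near_iff, a] <;> omega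

theorem Near.symm {k x : Pt} (h : Near k x) : Near x k :=
  ⟨h.1.symm, fun i => abs_sub_comm (x i) (k i) ▸ h.2 i⟩

/-- two different triangles round a site that are not opposite -/
theorem near_tri_tri (b : Site) (i : ZMod 6) {w v : ℤ} (h : |v - w| ≤ 1) :
    Near (tri b i w) (tri b (i + 1) v) ∧ Near (tri b i w) (tri b (i + 2) v) := by
  rw [abs_le] at h
  rcases table i with a | a | a | a | a | a <;> simp [near_iff, a] <;> omega

theorem near_tri_lev (b : Site) (i : ZMod 6) {w v : ℤ} (h : |v - w| = 1) :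
    Near (tri b i w) (tri b i v) := by
  have := abs_eq (a := v - w) (b := 1) (by norm_num)
  simp [near_iff]
  omega

/-- the lines of the position through the site `s` -/
def lines (Q : Finset Pt) (s : Site) : Finset (Pt × Fin 3) :=
  (Q ×ˢ univ).filter fun p => site p.1 p.2 = s

theorem mem_lines {Q : Finset Pt} {s : Site} {r : Pt} {j : Fin 3} :
    (r, j) ∈ lines Q s ↔ r ∈ Q ∧ site r j = s := by simp [lines]

/-- number of lines through the site -/
def cnt (Q : Finset Pt) (s : Site) : ℕ := (lines Q s).card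

theorem cnt_mono {Q Q' : Finset Pt} (h : Q ⊆ Q') (s : Site) : cnt Q s ≤ cnt Q' s :=
  card_le_card fun ⟨_, _⟩ a => mem_lines.2 ⟨h (mem_lines.1 a).1, (mem_lines.1 a).2⟩

/-- number of lines of one rook through the site -/
def one (r : Pt) (s : Site) : ℕ :=
  (if site r 0 = s then 1 else 0) + (if site r 1 = s then 1 else 0) + if site r 2 = s then 1 else 0

theorem cnt_eq (Q : Finset Pt) (s : Site) : cnt Q s = ∑ r ∈ Q, one r s := by
  rw [cnt, lines, card_filter, sum_product]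
  exact sum_congr rfl fun r _ => Fin.sum_univ_three _

theorem cnt_insert {Q : Finset Pt} {r : Pt} (h : r ∉ Q) (s : Site) :
    cnt (insert r Q) s = one r s + cnt Q s := by rw [cnt_eq, sum_insert h, cnt_eq]

theorem cnt_erase {Q : Finset Pt} {r : Pt} (h : r ∈ Q) (s : Site) :
    cnt Q s = one r s + cnt (Q.erase r) s := by
  rw [← cnt_insert (notMem_erase r Q), insert_erase h]

theorem one_pos {r : Pt} {s : Site} {j : Fin 3} (h : site r j = s) : 1 ≤ one r s := by
  rcases three_cases j with rfl | rfl | rfl <;> simp only [one, h, if_true] <;> omega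

theorem one_col {r : Pt} {s : Site} (h : Col r s) : one r s = 3 := by
  simp only [one, col_iff.1 h, if_true]

theorem one_zero {r : Pt} {s : Site} (h : ∀ j, site r j ≠ s) : one r s = 0 := by
  simp only [one, h, if_false]

theorem one_le {r : Pt} {s : Site} (h : ¬ Col r s) : one r s ≤ 1 := by
  rw [one]
  split_ifs with a b c d e f g <;> first | omega | exact absurd (col_of_two (by decide) a b) h |
    exact absurd (col_of_two (by decide) a d) h | exact absurd (col_of_two (by decide) e f) h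

/-- rooks of a subset count separately -/
theorem sum_one_le {Q S : Finset Pt} (h : S ⊆ Q) (s : Site) : ∑ r ∈ S, one r s ≤ cnt Q s :=
  cnt_eq S s ▸ cnt_mono h s

theorem one_le_cnt {Q : Finset Pt} {r : Pt} (h : r ∈ Q) (s : Site) : one r s ≤ cnt Q s := by
  rw [cnt_erase h s]
  omega

theorem two_le_cnt {Q : Finset Pt} {r t : Pt} (h : r ∈ Q) (ht : t ∈ Q) (a : r ≠ t) (s : Site) :
    one r s + one t s ≤ cnt Q s := by
  have := one_le_cnt (mem_erase.2 ⟨a.symm, ht⟩) s
  rw [cnt_erase h s]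
  omega

theorem three_le_cnt {Q : Finset Pt} {r t u : Pt} (h : r ∈ Q) (ht : t ∈ Q) (hu : u ∈ Q)
    (a : r ≠ t) (b : r ≠ u) (c : t ≠ u) (s : Site) : one r s + one t s + one u s ≤ cnt Q s := by
  have := two_le_cnt (mem_erase.2 ⟨a.symm, ht⟩) (mem_erase.2 ⟨b.symm, hu⟩) c s
  rw [cnt_erase h s]
  omega

theorem cnt_zero {Q : Finset Pt} {s : Site} : cnt Q s = 0 ↔ ∀ r ∈ Q, ∀ j, site r j ≠ s := by
  rw [cnt, card_eq_zero, eq_empty_iff_forall_notMem]
  exact ⟨fun h r hr j a => h (r, j) (mem_lines.2 ⟨hr, a⟩),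
    fun h ⟨r, j⟩ a => h r (mem_lines.1 a).1 j (mem_lines.1 a).2⟩

/-- the rook moves along the level direction: the lines keep their sites -/
def WMove (r r' : Pt) : Prop := r' 3 ≠ r 3 ∧ ∀ j, site r' j = site r j

/-- the rook moves along direction `i` on its level: the line `i` stays, the other two are new -/
def YMove (r r' : Pt) (i : Fin 3) : Prop :=
  r' 3 = r 3 ∧ site r' i = site r i ∧ ∀ j, j ≠ i → site r' j ≠ site r j

theorem Ham1.cases {r r' : Pt} (h : Ham1 r r') : WMove r r' ∨ ∃ i, YMove r r' i := by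
  rcases ham1_iff.1 h with a | a | a | a
  · refine Or.inr ⟨0, a.2.2.2.symm, by simp [a], fun j hj => ?_⟩
    rcases three_cases j with rfl | rfl | rfl <;> simp [Prod.ext_iff] at hj ⊢ <;> omega
  · refine Or.inr ⟨1, a.2.2.2.symm, by simp [a], fun j hj => ?_⟩
    rcases three_cases j with rfl | rfl | rfl <;> simp [Prod.ext_iff] at hj ⊢ <;> omega
  · refine Or.inr ⟨2, a.2.2.2.symm, by simp [a], fun j hj => ?_⟩
    rcases three_cases j with rfl | rfl | rfl <;> simp [Prod.ext_iff] at hj ⊢ <;> omega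
  · refine Or.inl ⟨a.2.2.2.symm, fun j => ?_⟩
    rcases three_cases j with rfl | rfl | rfl <;> simp [a]

/-- the new tokens of a move along direction `i` -/
def fresh (r' : Pt) (i : Fin 3) : Multiset Site := {site r' (i + 1), site r' (i + 2)}

theorem one_fresh (r' : Pt) (i : Fin 3) (s : Site) :
    one r' s = (if site r' i = s then 1 else 0) + (fresh r' i).count s := by
  have e : ∀ a : Site, (if s = a then 1 else 0) = if a = s then 1 else 0 := fun a => by
    simp only [eq_comm]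
  rcases three_cases i with rfl | rfl | rfl <;>
    simp only [one, fresh, Multiset.insert_eq_cons, Multiset.count_cons,
      Multiset.count_singleton, e, Fin.reduceAdd] <;> omega

/-- the answer of White after the king went to `k` in the position `Q`: the rook `r` goes to `r'`,
`Q'` is the new position and `new` are the new tokens -/
structure Reply (Q : Finset Pt) (k r r' : Pt) (Q' : Finset Pt) (new : Multiset Site) : Prop where
  mem : r ∈ Q
  ne : r ≠ k
  nmem : r' ∉ Q.erase k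
  ne' : r' ≠ k
  eq : Q' = insert r' ((Q.erase k).erase r)
  kind : (WMove r r' ∧ new = 0) ∨ ∃ i, YMove r r' i ∧ new = fresh r' i

theorem Reply.mem_iff {Q Q' : Finset Pt} {k r r' : Pt} {new : Multiset Site}
    (h : Reply Q k r r' Q' new) {t : Pt} : t ∈ Q' ↔ t = r' ∨ (t ∈ Q ∧ t ≠ k ∧ t ≠ r) := by
  rw [h.eq, mem_insert, mem_erase, mem_erase]
  tauto

theorem Reply.card_le {Q Q' : Finset Pt} {k r r' : Pt} {new : Multiset Site}
    (h : Reply Q k r r' Q' new) : new.card ≤ 2 := by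
  rcases h.kind with ⟨-, rfl⟩ | ⟨i, -, rfl⟩ <;> simp [fresh]

theorem Reply.one_le {Q Q' : Finset Pt} {k r r' : Pt} {new : Multiset Site}
    (h : Reply Q k r r' Q' new) (s : Site) : one r' s ≤ one r s + new.count s := by
  rcases h.kind with ⟨a, rfl⟩ | ⟨i, a, rfl⟩
  · simp only [one, a.2]
    omega
  · rw [one_fresh r' i]
    split_ifs with b
    · have := one_pos (a.2.1 ▸ b : site r i = s)
      omega
    · omega

theorem Reply.cnt_le' {Q Q' : Finset Pt} {k r r' : Pt} {new : Multiset Site}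
    (h : Reply Q k r r' Q' new) (s : Site) : cnt Q' s ≤ cnt (Q.erase k) s + new.count s := by
  have := h.one_le s
  rw [h.eq, cnt_insert fun a => h.nmem (mem_of_mem_erase a),
    cnt_erase (mem_erase.2 ⟨h.ne, h.mem⟩) s]
  omega

theorem Reply.cnt_le {Q Q' : Finset Pt} {k r r' : Pt} {new : Multiset Site}
    (h : Reply Q k r r' Q' new) (s : Site) : cnt Q' s ≤ cnt Q s + new.count s :=
  (h.cnt_le' s).trans (Nat.add_le_add_right (cnt_mono (erase_subset _ _) s) _)

/-- a node of the lost game tree: king on `k` to move in `Q`, inside the box of radius `N`,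
all lines through sites `p ≥ -1` are recorded in `Z` -/
def Node (N : ℕ) (Z : Multiset Site) (k : Pt) (Q : Finset Pt) : Prop :=
  ∃ n : ℕ, Lost n k Q ∧ (∀ i, |k i| + n ≤ N) ∧ ∀ s : Site, -1 ≤ s.1 → cnt Q s ≤ Z.count s

theorem Node.mono {N : ℕ} {Z Z' : Multiset Site} {k : Pt} {Q : Finset Pt} (h : Node N Z k Q)
    (hz : Z ≤ Z') : Node N Z' k Q :=
  let ⟨n, a, b, c⟩ := h
  ⟨n, a, b, fun s hs => (c s hs).trans (Multiset.count_le_of_le s hz)⟩

theorem Node.cnt_le {N : ℕ} {Z : Multiset Site} {k : Pt} {Q : Finset Pt} (h : Node N Z k Q)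
    {s : Site} (hs : -1 ≤ s.1) : cnt Q s ≤ Z.count s :=
  let ⟨_, _, _, c⟩ := h
  c s hs

theorem Node.box {N : ℕ} {Z : Multiset Site} {k : Pt} {Q : Finset Pt} (h : Node N Z k Q)
    (i : Fin 4) : |k i| ≤ N := by
  obtain ⟨n, -, b, -⟩ := h
  have := b i
  omega

/-- a safe king step leads to a new node -/
theorem Node.move {N : ℕ} {Z : Multiset Site} {k k' : Pt} {Q : Finset Pt} (h : Node N Z k Q)
    (hn : Near k k') (hs : Safe Q k') :
    ∃ r r' Q' new, Reply Q k' r r' Q' new ∧ Node N (new + Z) k' Q' := by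
  obtain ⟨n, a, b, c⟩ := h
  obtain ⟨m, r, r', rfl, a1, a2, a3, a4, a5⟩ := a.move hn hs
  have key : ∀ new, ((WMove r r' ∧ new = 0) ∨ ∃ i, YMove r r' i ∧ new = fresh r' i) →
      ∃ r r' Q' new, Reply Q k' r r' Q' new ∧ Node N (new + Z) k' Q' := fun new hk => by
    have hr : Reply Q k' r r' _ new :=
      ⟨mem_of_mem_erase a1, (mem_erase.1 a1).1, a2, a3, rfl, hk⟩
    refine ⟨r, r', _, new, hr, m, a5, fun i => ?_, fun s hs => ?_⟩
    · have b1 := b i
      have b2 := abs_le.1 (hn.2 i)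
      push_cast at b1
      rcases abs_cases (k i) with x | x <;> rcases abs_cases (k' i) with y | y <;> omega
    · have := hr.cnt_le s
      have := c s hs
      rw [Multiset.count_add]
      omega
  rcases a4.cases with x | ⟨i, x⟩
  · exact key 0 (Or.inl ⟨x, rfl⟩)
  · exact key _ (Or.inr ⟨i, x, rfl⟩)

end Pool.Agent.MP_6bef34_co.H7
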