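import Pool.Agent.MP_6bef34_co.H28.Pay

/-! The column rule when the only token of the site behind the gate is spent. -/

namespace Pool.Agent.MP_6bef34_co.H88

open Finset
open Pool.Agent.MP_6bef34_co.H7 (Site d Wall Box need)
open Pool.Agent.MP_6bef34_co.H28

variable {Lo : Pt → Finset Pt → Prop} {N : ℤ} {s t : St Nd} {b : Site} {i : ZMod 6} {p c : Nd}

theorem k2_tab : ∀ i : ZMod 6, d (i + 1) + d (i + 5) = d i ∧
    d (i + 1) + d i + d (i + 4) = d i ∧ d i + d (i + 2) = d (i + 1) ∧ d i + d (i + 2 + 1) = 0 ∧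
    d (i + 1) + d (i + 5 + 1) = d i + d (i + 1) ∧ d (i + 1) + d (i + 5 + 5) = 0 ∧
    i + 5 + 2 = i + 1 ∧ d (i + 1 + 1) + d (i + 1) = d (i + 1) + d (i + 2) ∧
    d (i + 1) + d (i + 3) = d (i + 2) ∧ i + 1 ≠ i + 5 ∧ i + 2 ≠ i + 5 ∧
    (∀ m, (i + 1 = m ∨ i + 1 = m + 1) → ¬ (i + 4 = m ∨ i + 4 = m + 1)) ∧
    d (i + 1) ≠ d i ∧ d (i + 2) ≠ d i ∧ d (i + 2) ≠ d (i + 1) ∧ i + 3 ≠ i ∧ i + 3 ≠ i + 1 ∧
    i + 1 + 1 = i + 2 := by decide

/-- the wall behind the gate is closed, the corner is passed and the walk turns -/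
theorem k2_pass (h : Inv (par Lo N) s) (he : s.e = (b, i)) (hv : b ∉ s.V)
    (hx : s.U (b + d (i + 1))) (hB : Box (par Lo N).M (b + d (i + 1))) (m : ℕ)
    (hw : Wall s.De (b + d (i + 1) + d i)) (hr : RcOK s b i)
    (hz : s.c (b + d (i + 1)) + m ≤ min 3 (s.z (b + d (i + 1)))) (hH : (s.nd b).nB b ≤ 2)
    (hg : 0 ≤ s.g + 2 + m) : ∃ t, Inv (par Lo N) t ∧ t.e = (b + d (i + 1), i) ∧
      t.g = s.g + 2 + m ∧ s.mu < t.mu ∧ t.De = s.De ∧ t.R = insert (b + d (i + 1)) s.R ∧
      b + d (i + 1) ∈ t.V ∧ t.Z = s.Z ∧ ∀ u, u ≠ b + d (i + 1) → t.c u = s.c u := by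
  obtain ⟨a1, a2, a3⟩ := h.pass he hv hx hB m (hr hv) hz (Or.inl hH) fun a => absurd hw a
  have e1 : (s.pass.claim (b + d (i + 1)) m).e = (b + d (i + 1), i - 1) := by
    simp only [St.claim_e, St.pass, he, H7.corner]
  obtain ⟨b1, b2, b3⟩ := a1.turn (by
    rw [e1]
    simpa only [H7.corner, sub_add_cancel, St.claim_De, St.pass] using hw) (Or.inr (by omega))
  refine ⟨_, b1, ?_, by omega, by omega, rfl, ?_, ?_, rfl, fun u hu => ?_⟩
  · simp only [St.turn_e, e1, sub_add_cancel]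
  · simp only [St.turn_R, St.claim_R, St.pass, he, H7.corner]
  · simp only [St.turn_V, St.claim_V, St.pass, he, H7.corner, mem_insert_self]
  · rw [St.turn_c, St.c_claim_ne _ _ hu]
    rfl

theorem k2 (G : Gm Lo N) (h : Inv (par Lo N) s) (he : s.e = (b, i)) (hv : b ∉ s.V)
    (hg : 0 ≤ s.g) (hx : s.U (b + d (i + 1))) (h0 : K0 s.De (b + d (i + 1)))
    (hc : (node s b).COL (b + d (i + 1))) (hw : ¬ Wall s.De (b + d (i + 2)))
    (ho : s.U (b + d (i + 1) + d i)) (h1 : K1 s.De (b + d (i + 1) + d i))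
    (hco : s.c (b + d (i + 1) + d i) = 1) (hzo : s.z (b + d (i + 1) + d i) ≤ 1)
    (hG : (node s b).Gate b i) (hH : (node s b).nB b ≤ 2) (hr : RcOK s b i) (hC : Cont s b i) :
    Nx Lo N s := by
  obtain ⟨t1, t2, t3, t4, t5, t6, t7, t8, t9, t10, t11, t12, t13, t14, t15, t16, t17, t18⟩ :=
    k2_tab i
  have exa : b + d (i + 1) + d (i + 5) = b + d i := by rw [add_assoc, t1]
  have eoa : b + d (i + 1) + d i + d (i + 4) = b + d i := by
    rw [add_assoc b, add_assoc b, t2]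
  have eoz : b + d (i + 1) + d i + d (i + 2) = b + d (i + 1) + d (i + 1) := by rw [add_assoc, t3]
  have eox : b + d (i + 1) + d i + d (i + 2 + 1) = b + d (i + 1) := by rw [add_assoc, t4, add_zero]
  have ezo : b + d (i + 1) + d (i + 1) + d (i + 5) = b + d (i + 1) + d i := by rw [add_assoc, t1]
  have ezq : b + d (i + 1) + d (i + 1) + d (i + 5 + 1) = b + d (i + 1) + d i + d (i + 1) := by
    rw [add_assoc, t5, ← add_assoc]
  have ezx : b + d (i + 1) + d (i + 1) + d (i + 5 + 5) = b + d (i + 1) := by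
    rw [add_assoc, t6, add_zero]
  have ey : b + d (i + 1 + 1) + d (i + 1) = b + d (i + 1) + d (i + 2) := by
    rw [add_assoc, t8, ← add_assoc]
  have ex2 : b + d (i + 1) + d (i + 3) = b + d (i + 2) := by rw [add_assoc, t9]
  have nxo : b + d (i + 1) ≠ b + d (i + 1) + d i := (H7.add_d_ne _ _).symm
  have nxz : b + d (i + 1) ≠ b + d (i + 1) + d (i + 1) := (H7.add_d_ne _ _).symm
  have nzo : b + d (i + 1) + d (i + 1) ≠ b + d (i + 1) + d i := fun e => t13 (add_left_cancel e)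
  have hb := head_R h he
  have nbo : b ≠ b + d (i + 1) + d i := fun e => ho.2 (e ▸ hb)
  obtain ⟨hok, hon⟩ := node_ok h hb hv
  have hbox := box_real G h hb hv
  have hBx : Box (par Lo N).M (b + d (i + 1)) := box1 hbox _
  have hBo : Box (par Lo N).M (b + d (i + 1) + d i) := box2 hbox _ _
  have hBz : Box (par Lo N).M (b + d (i + 1) + d (i + 1)) := box2 hbox _ _
  have wa := head_wall h he
  have z3 : 3 ≤ s.z (b + d (i + 1)) := hc.1.three hok.2
  have z3' : s.z (b + d (i + 1)) ≤ 3 := hc.2.1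
  have cx := h.u0 _ hx h0
  have tip : ∀ k, k ≠ i + 5 → ¬ Wall s.De (b + d (i + 1) + d k) := fun k a w =>
    a (h0 k (i + 5) w (exa ▸ wa))
  have nz := tip (i + 1) t10
  have no : need s.De (b + d (i + 1) + d i) ≤ 2 :=
    need_le_of_not_k0 fun a => by have := h.u0 _ ho a; omega
  have nq : ¬ Wall s.De (b + d (i + 1) + d i + d (i + 1)) := fun w => by
    obtain ⟨m, a⟩ := h1
    exact t12 m (a (i + 1) w) (a (i + 4) (eoa ▸ wa))
  -- the state after the absorption of `o`
  have i1 := h.absorb ho hBo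
  have g1 := h.g_absorb ho
  have m1 := St.mu_absorb ho
  have x1 : (s.absorb (b + d (i + 1) + d i)).U (b + d (i + 1)) := St.U_absorb.2 ⟨nxo, hx⟩
  have w1 : Wall (s.absorb (b + d (i + 1) + d i)).De (b + d (i + 1) + d i) :=
    H7.wall_insert.2 (Or.inl rfl)
  have r1 : RcOK (s.absorb (b + d (i + 1) + d i)) b i := fun a a2 a3 a4 =>
    hr a (St.U_absorb.1 a2).2 (St.U_absorb.1 a3).2 (St.U_absorb.1 a4).2
  rcases s.dec (b + d (i + 1) + d (i + 1)) with hz | hz | hz
  · exact absurd hz nz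
  · -- free pass
    obtain ⟨t, a1, a2, a3, a4, a5, a6, -⟩ := k2_pass i1 he hv x1 hBx 0 w1 r1
      (by simp only [St.absorb_c, St.absorb_z]; omega) hH (by omega)
    exact ⟨t, good_arr a1 a2 ⟨by rw [a6]; exact mem_insert_of_mem hz, Or.inl (by omega)⟩, by omega⟩
  have z1 : (s.absorb (b + d (i + 1) + d i)).U (b + d (i + 1) + d (i + 1)) :=
    St.U_absorb.2 ⟨nzo, hz⟩
  by_cases hk : K0 (s.absorb (b + d (i + 1) + d i)).De (b + d (i + 1) + d (i + 1))
  swap
  · -- gain
    have b1 : ¬ Wall (s.absorb (b + d (i + 1) + d i)).De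
        (b + d (i + 1) + d (i + 1) + d (i + 5 + 1)) := by
      rw [ezq, St.absorb_De, H7.wall_insert_of_ne (H7.add_d_ne _ _)]
      exact nq
    have b5 : ¬ Wall (s.absorb (b + d (i + 1) + d i)).De
        (b + d (i + 1) + d (i + 1) + d (i + 5 + 5)) := by
      rw [ezx]
      exact x1.1
    have n2 : need (s.absorb (b + d (i + 1) + d i)).De (b + d (i + 1) + d (i + 1)) ≤ -4 := by
      refine H7.need_le_neg (j := i + 5) (by rw [ezo]; exact w1) b1 b5 (by_contra fun a => ?_)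
      push Not at a
      exact hk (k0_of b1 a.1 a.2.1 a.2.2 b5)
    have i2 := i1.absorb z1 hBz
    have g2 := i1.g_absorb z1
    have m2 := St.mu_absorb z1
    have x2 : ((s.absorb (b + d (i + 1) + d i)).absorb (b + d (i + 1) + d (i + 1))).U
        (b + d (i + 1)) := St.U_absorb.2 ⟨nxz, x1⟩
    obtain ⟨t, a1, -, -, a4⟩ := at_own i2 he x2 hBx 0 (by simp only [St.absorb_c]; omega)
      (Nat.zero_le _) (Nat.zero_le _)
    have n3 : need ((s.absorb (b + d (i + 1) + d i)).absorb (b + d (i + 1) + d (i + 1))).De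
        (b + d (i + 1)) ≤ 0 :=
      H7.need_le_zero (j := i + 5) (by
        rw [exa]
        exact wa.mono ((subset_insert _ _).trans (subset_insert _ _)))
        (Or.inl (by rw [t7]; exact H7.wall_insert.2 (Or.inl rfl)))
    simp only [St.absorb_c] at a4
    have := a1.mu
    exact ⟨t, good_c3 a1.inv a1.e (by rw [a1.V]; exact hv) ⟨a1.e3, Or.inl (by omega)⟩, by omega⟩
  have cz : s.c (b + d (i + 1) + d (i + 1)) = 0 := i1.u0 _ z1 hk
  by_cases hzz : 1 ≤ s.z (b + d (i + 1) + d (i + 1))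
  · -- one token of `z` is borrowed
    have i2 := i1.absorbB (k := i + 2) w1 (by rw [eox]; exact x1) (by rw [eox]; exact hBx) 3
      (by rw [eox]; simp only [St.absorb_c, St.absorb_z]; omega)
      (by rw [eox]; simp only [St.absorb_c]; omega) (by rw [eoz]; exact z1)
      (by rw [eoz]; simp only [St.absorb_c]; omega)
      (by rw [eoz]; simp only [St.absorb_c, St.absorb_z]; omega)
    rw [eox, eoz] at i2
    have n2 : need (s.absorb (b + d (i + 1) + d i)).De (b + d (i + 1)) ≤ 2 :=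
      H7.need_le_two (j := i + 5) (by rw [exa]; exact wa.mono (subset_insert _ _))
        (by rw [H50.ix51]; exact w1)
    have g2 := i1.g_absorb x1
    have m2 := St.mu_absorb x1
    obtain ⟨b1, b2, b3⟩ := i2.turn (by
      simp only [St.claim_e, St.absorb_e, he, H7.corner, St.claim_De, St.absorb_De]
      exact H7.wall_insert.2 (Or.inl rfl)) (Or.inr (by simp only [St.g_claim]; omega))
    simp only [St.g_claim, St.claim_mu] at b2 b3
    refine (cont_post (b := b) (i := i) b1 (by simp only [St.turn_e, St.claim_e, St.absorb_e, he])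
      (by simp only [St.turn_O, St.claim_e, St.absorb_e, he, mem_insert_self]) hv
      ((by omega : (0 : ℤ) ≤ _).trans (fl_ge b1 b)) ?_ hH ?_ (fun a a' => ?_) hc.1 z3' ?_).nx
      (by omega)
    · simp only [St.turn_De, St.claim_De, St.absorb_De]
      rw [H7.wall_insert_of_ne fun e => t15 (add_left_cancel e), ← ex2,
        H7.wall_insert_of_ne fun e => t16 (H7.add_d_inj e), ex2]
      exact hw
    · rw [St.turn_c, St.c_claim_ne _ _ nxz, St.c_claim_self]
      simp only [St.absorb_c]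
      omega
    · rw [ey] at a a' ⊢
      rw [St.turn_c, St.c_claim_ne _ _ fun e => t15 (add_left_cancel e),
        St.c_claim_ne _ _ (H7.add_d_ne _ _), St.absorb_c]
      exact i1.clean x1 (St.U_absorb.1 a).2 a'
    · exact hC.imp (fun a => ⟨fun c => a.1 (St.U_absorb.1 (St.U_absorb.1 c).2).2,
        fun c => a.2 (St.U_absorb.1 (St.U_absorb.1 c).2).2⟩) fun a => ⟨a.1,
        a.2.imp_left fun a c => a (St.U_absorb.1 (St.U_absorb.1 c).2).2⟩
  obtain ⟨c, hE, hcase⟩ := k2_game G hok hon hc hG hzo (by rw [node_cnt]; omega)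
  rcases hcase with ⟨a1, a2, a3⟩ | ⟨a1, a2, a3⟩
  · exact passTo G h he hv hx cx z3 ho h1 hr le_rfl (Or.inl hH)
      (Or.inr (hC.symm.imp (fun a => ⟨hc.1, hc.2.2, a.1⟩) fun a => a.2)) rfl hE a1 a2 a3 (by omega)
      (Or.inr (by omega))
  obtain ⟨nw, e1, e2, e3⟩ := ext_add h (node_T s b) hE
  have zc : ∀ u, (s.addZ nw).z u = c.cnt u := fun u => by rw [St.z, e1, Nd.cnt]
  have zm : ∀ u, s.z u ≤ (s.addZ nw).z u := fun u => by rw [St.z_addZ]; omega
  obtain ⟨m, m0, m2, m4⟩ : ∃ m : ℕ, 1 + m ≤ (s.addZ nw).z (b + d (i + 1) + d i) ∧ m ≤ 2 ∧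
      (node s b).cost c ≤ 2 + m := by
    have := h.cz (b + d (i + 1) + d i)
    rcases a1 with a | a
    · have := zm (b + d (i + 1) + d i)
      exact ⟨0, by omega, by omega, by omega⟩
    · have := a.2
      rw [node_cnt, ← zc] at this
      exact ⟨2, by omega, by omega, by push_cast; omega⟩
  have ho' : (s.addZ nw).U (b + d (i + 1) + d i) := ho
  have i2 := e2.absorbC ho' hBo m (by simp only [St.addZ_c]; omega)
    (by simp only [St.addZ_c]; omega)
  have g2 := e2.g_absorbC ho' m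
  have mu2 := St.mu_absorb ho'
  have := zm (b + d (i + 1))
  simp only [St.addZ_De, St.addZ_mu] at g2 mu2
  obtain ⟨t, b1, b2, b3, b4, b5, b6, b7, b8, b9⟩ := k2_pass i2 he hv x1 hBx 2 w1
    (fun a a2 a3 a4 => by
      rw [St.c_claim_ne _ _ nbo]
      exact r1 a a2 a3 a4)
    (by
      rw [St.c_claim_ne _ _ nxo]
      simp only [St.absorb_c, St.addZ_c, St.claim_z, St.absorb_z]
      omega) hH (by push_cast; omega)
  simp only [St.claim_mu] at b4
  refine (land_any G b1 b2 rfl ⟨by rw [b5]; exact z1.1, ?_⟩ (by rw [b5]; exact hk.k1)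
    (fun a => absurd b7 a) hE.1 (b8.trans e1).symm a2 a3 (by push_cast at b3; omega)
    (Or.inl ?_)).of_le (by omega)
  · rw [b6]
    exact fun a => (mem_insert.1 a).elim (fun e => nxz e.symm) hz.2
  · rw [b9 _ nxz.symm, St.c_claim_ne _ _ nzo]
    exact cz

end Pool.Agent.MP_6bef34_co.H88
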