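import Pool.Agent.MP_6bef34_co.H7.Top
import Pool.Agent.MP_6bef34_co.H88.Api

/-! The game in terms of nodes and children. -/

namespace Pool.Agent.MP_6bef34_co.H7

open Finset H60 H88

theorem up_eq (s : Site) (w : ℤ) : up s w = sp s w := rfl

theorem tri_eq (b : Site) (i : ZMod 6) (w : ℤ) : tri b i w = tp b i w := rfl

theorem site_eq (r : Pt) (j : Fin 3) : site r j = tk r j := rfl

theorem near_eq (k x : Pt) : Near k x ↔ H88.Near k x := Iff.rfl

theorem ham1_eq (k x : Pt) : Ham1 k x ↔ H88.Ham1 k x := Iff.rfl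

theorem safe_iff {Q : Finset Pt} {x : Pt} : Safe Q x ↔ ¬ Att Q x :=
  ⟨fun h ⟨r, a, b⟩ => h r a b, fun h r a b => h ⟨r, a, b⟩⟩

theorem Lost.kid {p : Nd} {k' : Pt} (h : Lost p.n p.k p.Q) (hn : H88.Near p.k k')
    (ha : ¬ Att p.Q k') :
    ∃ c nw, Kid p c nw ∧ c.k = k' ∧ Lost c.n c.k c.Q ∧ c.n + 1 = p.n := by
  obtain ⟨m, r, r', a0, a1, a2, a3, ⟨i, a4, a5⟩, a6⟩ := h.move hn (safe_iff.2 ha)
  exact ⟨⟨k', _, newt r' i + p.T, m⟩, newt r' i,
    ⟨r, r', i, mem_of_mem_erase a1, (mem_erase.1 a1).1, a2, a3, a4, a5, rfl, rfl, rfl⟩, rfl, a6,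
    a0.symm⟩

/-- the node is lost for the king and the rest of the game stays in the box of radius `N` -/
def Live (N : ℕ) (p : Nd) : Prop := Lost p.n p.k p.Q ∧ ∀ i, |p.k i| + p.n ≤ N

theorem Live.move {N : ℕ} {p : Nd} {k' : Pt} (h : Live N p) (hn : H88.Near p.k k')
    (ha : ¬ Att p.Q k') : ∃ c nw, Kid p c nw ∧ c.k = k' ∧ Live N c := by
  obtain ⟨c, nw, a1, a2, a3, a4⟩ := h.1.kid hn ha
  refine ⟨c, nw, a1, a2, a3, fun i => ?_⟩
  have b1 := h.2 i
  have b2 := abs_le.1 (hn.2 i)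
  rw [a2]
  rcases abs_cases (p.k i) with x | x <;> rcases abs_cases (k' i) with y | y <;> omega

/-- the token multiset of a node may be replaced -/
theorem Live.setT {N : ℕ} {p : Nd} (h : Live N p) (T : Multiset Site) :
    Live N { p with T := T } := h

theorem Live.box {N : ℕ} {p : Nd} (h : Live N p) (i : Fin 4) : |p.k i| ≤ N := by
  have := h.2 i
  omega

theorem Live.box_sp {N : ℕ} {p : Nd} {b : Site} {w : ℤ} (h : Live N p) (hk : p.k = sp b w) :
    Box N b := by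
  have a0 := h.box 0
  have a1 := h.box 1
  rw [hk] at a0 a1
  exact ⟨a0, a1⟩

theorem Live.box_tp {N : ℕ} {p : Nd} {b : Site} {i : ZMod 6} {w : ℤ} (h : Live N p)
    (hk : p.k = tp b i w) : Box (N + 1) b := by
  have a0 := abs_le.1 (h.box 0)
  have a1 := abs_le.1 (h.box 1)
  rw [hk] at a0 a1
  simp only [Box, abs_le]
  rcases geo6 i with a | a | a | a | a | a <;> simp [a] at a0 a1 <;> omega

theorem near_sp_sp (b : Site) (i : ZMod 6) {w v : ℤ} (h : |v - w| ≤ 1) :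
    H88.Near (sp b w) (sp (b + d i) v) := near_up_up b i h

theorem near_sp_lev (b : Site) {w v : ℤ} (h : |v - w| = 1) : H88.Near (sp b w) (sp b v) :=
  near_up_lev b h

theorem near_sp_tp (b : Site) (i : ZMod 6) {w v : ℤ} (h : |v - w| ≤ 1) :
    H88.Near (sp b w) (tp b i v) := near_up_tri b i h

theorem tp_left (b : Site) (i : ZMod 6) (v : ℤ) : tp (b + d i) (i + 2) v = tp b i v :=
  tri_left b i v

theorem tp_corner (b : Site) (i : ZMod 6) (v : ℤ) : tp (b + d (i + 1)) (i + 4) v = tp b i v :=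
  tri_corner b i v

/-- the far triangle of the dart `(b, i)` -/
theorem tp_far (b : Site) (i : ZMod 6) (v : ℤ) :
    tp (b + d i + d (i + 1)) (i + 3) v = tp (b + d i) (i + 1) v := by
  rcases table i with a | a | a | a | a | a <;>
    simp [← tri_eq, pt_ext, a] <;> omega

theorem near_sp_far (b : Site) (i : ZMod 6) {w v : ℤ} (h : |v - w| ≤ 1) :
    H88.Near (sp b w) (tp (b + d i) (i + 1) v) := tp_far b i v ▸ near_up_far b i h

theorem near_symm {k x : Pt} (h : H88.Near k x) : H88.Near x k := Near.symm h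

theorem near_tp_tp (b : Site) (i : ZMod 6) {w v : ℤ} (h : |v - w| ≤ 1) :
    H88.Near (tp b i w) (tp b (i + 1) v) ∧ H88.Near (tp b i w) (tp b (i + 2) v) :=
  near_tri_tri b i h

/-- the theorem follows once the root node is impossible; `T0` are the tokens of the start
position, all far inside the half plane -/
theorem final' (H : ∀ (N : ℕ) (p : Nd) (nw T0 : Multiset Site), Live N p → p.k = sp (0, 0) 0 →
      p.Sound → p.T = nw + T0 → nw.card ≤ 2 → (∀ s ∈ T0, s.1 ≤ -2) → False) (R D : ℕ) :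
    ∃ (k : Fin 4 → ℤ) (P : Finset (Fin 4 → ℤ)), P.card = R ∧ k ∉ P ∧ ¬ InCheck k P ∧
      (∀ r ∈ P, ∃ i, (D : ℤ) ≤ |r i - k i|) ∧
      ∃ S : Set ((Fin 4 → ℤ) × Finset (Fin 4 → ℤ)), (k, P) ∈ S ∧
        ∀ p ∈ S, ∀ P', WhiteMove p.1 p.2 P' →
          ∃ k', KingMove p.1 P' k' ∧ (k', P'.erase k') ∈ S := by
  have hinj : Function.Injective fun j : ℕ => up (-(D : ℤ) - 2, 0) j := fun a b h => by
    simpa [pt_ext] using h
  have h0 : up (0, 0) 0 ∉ P0 R D := fun a => by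
    obtain ⟨j, hj⟩ := mem_P0 a
    simp [pt_ext] at hj
    omega
  refine ⟨up (0, 0) 0, P0 R D, by rw [P0, card_image_of_injective _ hinj, card_range], h0, ?_,
    fun r hr => ?_, {p | ∀ n, ¬ Win n p.1 p.2}, fun n h => ?_, fun p hp P' h => escape hp h⟩
  · rintro ⟨r, hr, i, a, b, -⟩
    obtain ⟨j, rfl⟩ := mem_P0 hr
    have := ham1_iff.1 ⟨i, a, b⟩
    simp at this
    omega
  · obtain ⟨j, rfl⟩ := mem_P0 hr
    refine ⟨0, ?_⟩
    rw [le_abs]
    simp
  · rcases n with _ | n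
    · exact h
    obtain ⟨P', ⟨-, r, hr, r', a1, a2, ⟨i, a3, a4, -⟩, rfl⟩, h3⟩ := h
    have hk : Kid ⟨up (0, 0) 0, P0 R D, toks (P0 R D), n + 1⟩
        ⟨up (0, 0) 0, insert r' ((P0 R D).erase r), newt r' i + toks (P0 R D), n⟩ (newt r' i) :=
      ⟨r, r', i, hr, fun a : r = up (0, 0) 0 => h0 (a ▸ hr), fun a => a1 (mem_of_mem_erase a), a2,
        a3, a4, by rw [erase_eq_of_notMem h0], rfl, rfl⟩
    refine H n ⟨up (0, 0) 0, insert r' ((P0 R D).erase r), newt r' i + toks (P0 R D), n⟩ (newt r' i)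
      (toks (P0 R D)) ⟨h3, fun i => ?_⟩ rfl (hk.sound le_rfl) rfl hk.card fun s hs => ?_
    · fin_cases i <;> simp [up]
    · obtain ⟨t, ht, a⟩ := Multiset.mem_sum.1 hs
      obtain ⟨m, rfl⟩ := mem_P0 ht
      obtain ⟨j, rfl⟩ := mem_tk3.1 a
      rw [up_eq, tk_sp]
      simp

end Pool.Agent.MP_6bef34_co.H7
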