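import Pool.Agent.MP_6bef34_co.H7.K2
import Pool.Agent.MP_6bef34_co.H7.Arr
import Pool.Agent.MP_6bef34_co.H50.Lcd

/-! From every good state the walk goes on. -/

namespace Pool.Agent.MP_6bef34_co.H88

open Finset
open Pool.Agent.MP_6bef34_co.H7 (Site d Wall Box need)
open Pool.Agent.MP_6bef34_co.H28

variable {Lo : Pt → Finset Pt → Prop} {N : ℤ} {s t : St Nd} {b : Site} {i : ZMod 6}

theorem nx_tab : ∀ i : ZMod 6, d (i + 2) ≠ d (i + 1) ∧ d (i + 1) + d (i + 5) = d i ∧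
    i ≠ i + 5 ∧ d (i + 2) + d i = d (i + 1) ∧ d (i + 2) + d (i + 4) = d (i + 3) ∧ i ≠ i + 4 ∧
    d (i + 1) + d i ≠ d i ∧ d (i + 1) + d i ≠ d (i + 2) ∧ d (i + 1) + d i ≠ 0 := by decide

theorem nx_wall (h : AT Lo N s t b i) (hw : ¬ Wall s.De (b + d (i + 2))) :
    ¬ Wall t.De (b + d (i + 1 + 1)) := by
  rw [H50.ix11, h.wall]
  rintro (a | a)
  · exact (nx_tab i).1 (add_left_cancel a)
  · exact hw a

theorem nx_col (h : AT Lo N s t b i) (hc : t.c (b + d (i + 1)) + (node s b).nB b ≤ 5) :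
    ColOK t b (i + 1) := fun _ _ a a' => by
  rw [h.fresh a a', h.node]
  exact hc

theorem nx_dec (h : AT Lo N s t b i) {u : Site} (hu : ¬ s.U u) : ¬ t.U u :=
  fun a => hu (h.U.1 a).2

/-- the state after a paid corner, in terms of the state before -/
theorem nx_c3 (h : AT Lo N s t b i) (hw : ¬ Wall s.De (b + d (i + 2))) {f : ℤ} (h0 : 0 ≤ f)
    (hc : 2 ≤ f ∨ ¬ s.U (b + d (i + 3)) ∨
      (1 ≤ f ∧ (¬ s.U (b + d (i + 4)) ∨ (node s b).nB b ≤ 2)) ∨
      ((node s b).nB b ≤ 2 ∧ ¬ s.U (b + d (i + 4)) ∧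
        t.c (b + d (i + 1)) + (node s b).nB b ≤ 5) ∨
      ((node s b).nB b ≤ 1 ∧ t.c (b + d (i + 1)) ≤ 4 ∧ NCok t b (i + 1))) :
    C3 t b (i + 1) f := by
  refine ⟨h.e3, ?_⟩
  rw [H50.ix12, H50.ix13, h.node]
  rcases hc with a | a | a | a | a
  · exact Or.inl a
  · exact Or.inr ⟨nx_wall h hw, h0, Or.inl (nx_dec h a)⟩
  · exact Or.inr ⟨nx_wall h hw, h0, Or.inr (Or.inl ⟨a.1, a.2.imp_left (nx_dec h)⟩)⟩
  · exact Or.inr ⟨nx_wall h hw, h0,
      Or.inr (Or.inr (Or.inl ⟨a.1, nx_dec h a.2.1, nx_col h a.2.2⟩))⟩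
  · exact Or.inr ⟨nx_wall h hw, h0,
      Or.inr (Or.inr (Or.inr (Or.inr ⟨a.1, nx_col h (by omega), a.2.2⟩)))⟩

theorem nx_arr (G : Gm Lo N) (h : Inv (par Lo N) s) (he : s.e = (b, i)) (ha : ARR s b i) :
    Nx Lo N s := by
  by_cases hv : b + d (i + 1) ∈ s.V
  · exact arr_virt G h he hv (ha.2.elim (fun a => by omega) fun a => a.1)
  · exact arr_real h he ha hv

theorem nx_cont (h : AT Lo N s t b i) (hC : Cont s b i) : Cont t b i := by
  unfold Cont
  rw [h.node]
  exact hC.imp (fun a => ⟨nx_dec h a.1, nx_dec h a.2⟩) fun a => ⟨a.1, a.2.imp_left (nx_dec h)⟩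

theorem lack0 (G : Gm Lo N) (h : Inv (par Lo N) s) (he : s.e = (b, i)) (hv : b ∉ s.V)
    (hg : 0 ≤ s.g) (hx : s.U (b + d (i + 1))) (h0 : K0 s.De (b + d (i + 1)))
    (hb : (node s b).Blk (b + d (i + 1))) (hz : s.z (b + d (i + 1)) ≤ 3)
    (hw : ¬ Wall s.De (b + d (i + 2))) (hH : (node s b).nB b ≤ 2) (hr : RcOK s b i)
    (hcol : ColOK s b i) (hC : Cont s b i)
    (hN : (node s b).NC3 (b + d (i + 1)) → s.U (b + d (i + 2)) →
      K0 (insert (b + d (i + 1)) s.De) (b + d (i + 2)) → s.U (b + d (i + 1) + d i) →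
      K1 s.De (b + d (i + 1) + d i) → s.z (b + d i) ≤ s.c (b + d i) →
      s.z (b + d (i + 1) + d i) ≤ s.c (b + d (i + 1) + d i) → Nx Lo N s) : Nx Lo N s := by
  obtain ⟨t1, t2, t3, t4, t5, t6, t7, t8, t9⟩ := nx_tab i
  have hR := head_R h he
  obtain ⟨hok, hon⟩ := node_ok h hR hv
  have hbox := box_real G h hR hv
  have z3 : 3 ≤ s.z (b + d (i + 1)) := hb.three hok.2
  have cx := h.u0 _ hx h0
  have exa : b + d (i + 1) + d (i + 5) = b + d i := by rw [add_assoc, t2]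
  have wa := head_wall h he
  have post : ∀ t, AT Lo N s t b i → t.c (b + d (i + 1)) = 3 → s.g ≤ t.g → Nx Lo N s :=
    fun t a a3 ag => (cont_post a.inv a.e a.O (by rw [a.V]; exact hv)
      ((hg.trans ag).trans (fl_ge a.inv b)) (by rw [← H50.ix11]; exact nx_wall a hw)
      (by rw [a.node]; exact hH) a3.le a.fresh (by rw [a.node]; exact hb)
      (by rw [a.z]; exact hz) (nx_cont a hC)).nx a.mu
  rcases s.dec (b + d (i + 2)) with h2 | h2 | h2
  · exact absurd h2 hw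
  · exact lackR G h he hv hx z3 h2 hg
  by_cases hk : K0 (insert (b + d (i + 1)) s.De) (b + d (i + 2))
  swap
  · exact lackG G h he hv hx h0 z3 h2 hk hg
  rcases s.dec (b + d (i + 1) + d i) with ho | ho | ho
  · exact absurd (h0 i (i + 5) ho (exa ▸ wa)) t3
  · exact passR G h he hv hx cx z3 ho hr (Nat.zero_le 1) (Or.inl hH) (Or.inl rfl) (by omega)
  by_cases h1 : K1 s.De (b + d (i + 1) + d i)
  swap
  · -- `o` is free of charge, then the corner is no tip
    have i1 := h.absorb ho (box2 hbox _ _)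
    have g1 := h.g_absorb ho
    have m1 := St.mu_absorb ho
    have n1 := need_le_of_not_k1 h1
    have x1 : (s.absorb (b + d (i + 1) + d i)).U (b + d (i + 1)) :=
      St.U_absorb.2 ⟨(H7.add_d_ne _ _).symm, hx⟩
    have n2 : need (s.absorb (b + d (i + 1) + d i)).De (b + d (i + 1)) ≤ 2 :=
      H7.need_le_two (j := i + 5) (by rw [exa]; exact wa.mono (subset_insert _ _))
        (by rw [H50.ix51]; exact H7.wall_insert.2 (Or.inl rfl))
    obtain ⟨t, a1, -, -, a4⟩ := at_own i1 he x1 (box1 hbox _) 3 (by rw [St.absorb_c]; omega) z3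
      (by omega)
    rw [St.absorb_c] at a4
    have := a1.mu
    refine ⟨t, good_c3 a1.inv a1.e (by rw [a1.V]; exact hv) (nx_c3 a1 ?_ (by omega)
      (Or.inr (Or.inr (Or.inl ⟨by omega, Or.inr hH⟩)))), by omega⟩
    rw [St.absorb_De, H7.wall_insert_of_ne fun e => t8 (by
      rw [add_assoc] at e
      exact (add_left_cancel e).symm)]
    exact hw
  by_cases ha : s.c (b + d i) < s.z (b + d i)
  · obtain ⟨t, a1, a2, a3⟩ := at_left h he hx (box1 hbox _) z3 ha
    exact post t a1 a2 a3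
  by_cases hs : s.c (b + d (i + 1) + d i) < s.z (b + d (i + 1) + d i)
  · obtain ⟨t, a1, a2, a3⟩ := at_borrow h he hx (box1 hbox _) z3 ho h1 hs
    exact post t a1 a2 a3
  by_cases hc : Col (node s b).Q (b + d (i + 1))
  swap
  · exact hN ⟨hb, hz, hc⟩ h2 hk ho h1 (by omega) (by omega)
  have c5 := hcol h0 hx ho h1
  have gate := column_game hok.2 ⟨hb, hz, hc⟩ (by simp only [node_cnt]; omega)
  have c1 := h.u1 _ ho h1
  by_cases hco : s.c (b + d (i + 1) + d i) = 1
  · exact k2 G h he hv hg hx h0 ⟨hb, hz, hc⟩ hw ho h1 hco (by omega) gate hH hr hC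
  · obtain ⟨c, a1, a2, a3, a4⟩ := pass_game G hok hon gate (by rw [node_cnt]; omega)
    exact passTo G h he hv hx cx z3 ho h1 hr (Nat.zero_le 1) (Or.inl hH) (Or.inl rfl) rfl a1 a2 a3
      a4 (by omega) (Or.inl (by omega))

/-- the part common to all states with an open corner -/
theorem nx_split (G : Gm Lo N) (h : Inv (par Lo N) s) (he : s.e = (b, i)) (hv : b ∉ s.V)
    (hg : 0 ≤ s.g) (hx : ¬ Wall s.De (b + d (i + 1))) (hr : RcOK s b i)
    (hA : 1 ≤ s.g ∨ ¬ s.U (b + d (i + 2)) ∨ (node s b).nB b ≤ 2 ∨ 2 ≤ fl s b)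
    (paid : ∀ t, AT Lo N s t b i → s.g ≤ t.g → ¬ Wall s.De (b + d (i + 2)) →
      (¬ K0 s.De (b + d (i + 1)) ∧ t.c (b + d (i + 1)) ≤ 3) ∨
        (K0 s.De (b + d (i + 1)) ∧ (node s b).Blk (b + d (i + 1)) ∧ t.c (b + d (i + 1)) ≤ 4) →
      Wk Lo N t)
    (lack : s.U (b + d (i + 1)) → K0 s.De (b + d (i + 1)) → (node s b).Blk (b + d (i + 1)) →
      s.z (b + d (i + 1)) ≤ 3 → ¬ Wall s.De (b + d (i + 2)) → Nx Lo N s) : Nx Lo N s := by
  have hR := head_R h he
  obtain ⟨hok, hon⟩ := node_ok h hR hv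
  have hB : Box (par Lo N).M (b + d (i + 1)) := box1 (box_real G h hR hv) _
  rcases s.dec (b + d (i + 1)) with hU | hU | hU
  · exact absurd hU hx
  · exact nx_arr G h he ⟨hU, Or.inl (by omega)⟩
  by_cases hw : Wall s.De (b + d (i + 2))
  · exact gain G h he hv hU hw (by omega)
  obtain ⟨p4, p3, p0⟩ := price h hU (k := i + 5) (by
    rw [add_assoc, (nx_tab i).2.1]
    exact head_wall h he)
  have cz := h.cz (b + d (i + 1))
  have c2 := h.u2 _ hU
  by_cases h1 : K1 s.De (b + d (i + 1))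
  swap
  · obtain ⟨t, a1, a2, -, a4⟩ := at_own h he hU hB _ le_rfl cz (by omega)
    have := p0 h1
    exact (paid t a1 (by omega) hw (Or.inl ⟨fun a => h1 a.k1, by omega⟩)).nx a1.mu
  by_cases hb : (node s b).Blk (b + d (i + 1))
  swap
  · by_cases hf : s.c (b + d (i + 1)) = 0 ∨ 1 ≤ fl s (b + d (i + 1))
    · exact land_any G h he rfl hU h1 hr hok rfl (hon.adj _) hb hg hf
    · have := h.u1 _ hU h1
      simp only [fl] at hf
      exact lcd G h he hv hg hU h1 (by omega) (by omega) hw hr (hA.resolve_left (by omega))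
  have z3 : 3 ≤ s.z (b + d (i + 1)) := hb.three hok.2
  by_cases h0 : K0 s.De (b + d (i + 1))
  · by_cases h4 : s.z (b + d (i + 1)) ≤ 3
    · exact lack hU h0 hb h4 hw
    · obtain ⟨t, a1, a2, -, a4⟩ := at_own h he hU hB 4 (by omega) (by omega) le_rfl
      have := h.u0 _ hU h0
      exact (paid t a1 (by omega) hw (Or.inr ⟨h0, hb, a2.le⟩)).nx a1.mu
  · obtain ⟨t, a1, a2, -, a4⟩ := at_own h he hU hB 3 (by omega) z3 (by omega)
    have := p3 h0
    have := h.u1 _ hU h1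
    have := need_le_of_not_k0 h0
    exact (paid t a1 (by omega) hw (Or.inl ⟨h0, a2.le⟩)).nx a1.mu

/-- a blocked tip is paid with three tokens -/
theorem nx_three (G : Gm Lo N) (h : Inv (par Lo N) s) (he : s.e = (b, i)) (hv : b ∉ s.V)
    (hx : s.U (b + d (i + 1))) (h0 : K0 s.De (b + d (i + 1)))
    (hb : (node s b).Blk (b + d (i + 1))) :
    ∃ t, AT Lo N s t b i ∧ t.c (b + d (i + 1)) = 3 ∧ s.g - 1 ≤ t.g := by
  have hR := head_R h he
  have c0 := h.u0 _ hx h0
  obtain ⟨t, a1, a2, -, a4⟩ := at_own h he hx (box1 (box_real G h hR hv) _) 3 (by omega)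
    (hb.three (node_ok h hR hv).1.2) (by omega)
  have := (price h hx (k := i + 5) (by
    rw [add_assoc, (nx_tab i).2.1]
    exact head_wall h he)).1
  exact ⟨t, a1, a2, by omega⟩

theorem next_c3 (G : Gm Lo N) (h : Inv (par Lo N) s) (he : s.e = (b, i)) (hv : b ∉ s.V)
    (hc : C3 s b i s.g) : Nx Lo N s := by
  obtain ⟨t1, t2, t3, t4, t5, t6, t7, t8, t9⟩ := nx_tab i
  obtain ⟨h4, hc⟩ := hc
  have hR := head_R h he
  obtain ⟨hok, hon⟩ := node_ok h hR hv
  have hg : 0 ≤ s.g := hc.elim (fun a => by omega) fun a => a.2.1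
  have hr : RcOK s b i := fun _ _ _ a => absurd a h4
  by_cases hx : Wall s.De (b + d (i + 1))
  · have g2 : 2 ≤ s.g := hc.resolve_right fun a => a.1 hx
    obtain ⟨a1, a2, a3⟩ := h.turn (by rw [he]; exact hx) (Or.inr (by omega))
    refine ⟨_, good_c3 (b := b) (i := i + 1) a1 (by rw [St.turn_e, he]) hv
      ⟨?_, Or.inl (by omega)⟩, by omega⟩
    rw [H50.ix14]
    exact h.back_dec (head_mem he)
  have fin : ∀ t, AT Lo N s t b i → C3 t b (i + 1) t.g → Wk Lo N t := fun t a c =>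
    (good_c3 a.inv a.e (by rw [a.V]; exact hv) c).wk
  refine nx_split G h he hv hg hx hr ?_ (fun t a ag hw hp => ?_) fun hU h0 hb hz hw => ?_
  · rcases hc with a | ⟨-, -, a | ⟨a, -⟩ | a | a | a⟩
    · exact Or.inl (by omega)
    · exact Or.inr (Or.inl a)
    · exact Or.inl a
    · exact Or.inr (Or.inr (Or.inl a.1))
    · exact Or.inr (Or.inr (Or.inl a.1))
    · exact Or.inr (Or.inr (Or.inl (by omega)))
  · have c4 : t.c (b + d (i + 1)) ≤ 4 := hp.elim (fun a => by omega) fun a => a.2.2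
    rcases hc with c | ⟨-, -, c | ⟨c, -⟩ | c | c | c⟩
    · exact fin t a (nx_c3 a hw (by omega) (Or.inl (by omega)))
    · refine (good_arr a.inv a.e ⟨?_, Or.inl (by omega)⟩).wk
      rw [H50.ix11, a.R]
      exact ((s.dec _).resolve_left hw).resolve_right c
    · exact fin t a (nx_c3 a hw (by omega) (Or.inr (Or.inr (Or.inl ⟨by omega, Or.inl h4⟩))))
    · exact fin t a (nx_c3 a hw (by omega) (Or.inr (Or.inl c.2.1)))
    · have := (hp.resolve_right fun e => c.2 e.1).2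
      exact fin t a (nx_c3 a hw (by omega)
        (Or.inr (Or.inr (Or.inr (Or.inl ⟨c.1, h4, by omega⟩)))))
    · exact fin t a (nx_c3 a hw (by omega)
        (Or.inr (Or.inr (Or.inr (Or.inl ⟨by omega, h4, by omega⟩)))))
  have z3 : 3 ≤ s.z (b + d (i + 1)) := hb.three hok.2
  obtain ⟨t, a, a3, ag⟩ := nx_three G h he hv hU h0 hb
  rcases hc with c | ⟨-, -, c | ⟨c, c' | c'⟩ | c | c | c⟩
  · exact (fin t a (nx_c3 a hw (by omega)
      (Or.inr (Or.inr (Or.inl ⟨by omega, Or.inl h4⟩))))).nx a.mu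
  · exact lackR G h he hv hU z3 (((s.dec _).resolve_left hw).resolve_right c) hg
  · exact (fin t a (nx_c3 a hw (by omega) (Or.inr (Or.inl c')))).nx a.mu
  · exact (fin t a (nx_c3 a hw (by omega)
      (Or.inr (Or.inr (Or.inr (Or.inl ⟨c', h4, by omega⟩)))))).nx a.mu
  · refine lack0 G h he hv hg hU h0 hb hz hw c.1 hr c.2.2 (Or.inl ⟨c.2.1, h4⟩)
      fun hn h2 hk _ _ _ _ => ?_
    by_cases hb2 : (node s b).Blk (b + d (i + 2))
    · refine debt2 G h he hv hU z3 h2 (hb2.three hok.2)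
        (((s.dec _).resolve_left fun w => t6 (hk i (i + 4) ?_ ?_)).resolve_right c.2.1) hg
      · rw [add_assoc, t4]
        exact H7.wall_insert.2 (Or.inl rfl)
      · rw [add_assoc, t5]
        exact w.mono (subset_insert _ _)
    · exact retest G h he hv hg hU h0 hn h2 hk hb2 hr (Or.inl c.2.1)
  · exact absurd h0 c.2
  · refine lack0 G h he hv hg hU h0 hb hz hw (by omega) hr c.2.1 (Or.inr ⟨c.1, Or.inl h4⟩)
      fun hn _ _ ho h1 ha hs => ?_
    obtain ⟨z0, gate⟩ := c.2.2 h0 hn ho h1 ha hs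
    obtain ⟨n, a1, a2, a3, a4⟩ := pass_game G hok hon gate z0
    have := h.cz (b + d (i + 1) + d i)
    exact passTo G h he hv hU (h.u0 _ hU h0) z3 ho h1 hr (Nat.zero_le 1) (Or.inl (by omega))
      (Or.inl rfl) rfl a1 a2 a3 a4 (by omega) (Or.inl (by omega))

theorem next_c4 (G : Gm Lo N) (h : Inv (par Lo N) s) (he : s.e = (b, i)) (hv : b ∉ s.V)
    (hg : 0 ≤ s.g) (hc : C4 s b i) : Nx Lo N s := by
  obtain ⟨hx, c2, hc⟩ := hc
  have hR := head_R h he
  obtain ⟨hok, hon⟩ := node_ok h hR hv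
  have hr : RcOK s b i := fun _ _ _ _ => c2
  have nb : (node s b).nB b ≤ s.z b := Nd.nB_le_cnt hok.2 b
  have fg := fl_ge h b
  have fin : ∀ t, AT Lo N s t b i → C3 t b (i + 1) (fl t b) → Wk Lo N t := fun t a c =>
    post3 a.inv a.e (by rw [a.V]; exact hv) c
  refine nx_split G h he hv hg hx hr (Or.inr (Or.inr ?_)) (fun t a ag hw hp => ?_)
    fun hU h0 hb hz hw => ?_
  · rcases hc with c | c | c | c
    · exact Or.inr (by omega)
    · exact Or.inl c.2
    · exact Or.inl (c.2.2.1.trans one_le_two)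
    · exact Or.inl (by omega)
  · have c4 : t.c (b + d (i + 1)) ≤ 4 := hp.elim (fun a => by omega) fun a => a.2.2
    have := a.fl
    rcases hc with c | c | c | c
    · exact fin t a (nx_c3 a hw (by omega) (Or.inl (by omega)))
    · exact fin t a (nx_c3 a hw (by omega) (Or.inl (by omega)))
    · exact fin t a (nx_c3 a hw (by omega)
        (Or.inr (Or.inr (Or.inl ⟨by omega, Or.inr (c.2.2.1.trans one_le_two)⟩))))
    · refine fin t a (nx_c3 a hw (by omega)
        (Or.inr (Or.inr (Or.inr (Or.inr ⟨by omega, c4, fun _ n => absurd n ?_⟩)))))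
      rw [H50.ix11, a.node]
      rcases hp with p | p
      · exact c.2.2.1 p.1
      · rcases c.2.2.2 p.1 with e | e
        · exact e.2.resolve_left fun e => e p.2.1
        · exact fun n => e.1 n.1
  have z3 : 3 ≤ s.z (b + d (i + 1)) := hb.three hok.2
  obtain ⟨t, a, a3, ag⟩ := nx_three G h he hv hU h0 hb
  have := a.fl
  rcases hc with c | c | c | c
  · exact (fin t a (nx_c3 a hw (by omega) (Or.inl (by omega)))).nx a.mu
  · exact (fin t a (nx_c3 a hw (by omega)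
      (Or.inr (Or.inr (Or.inl ⟨by omega, Or.inr c.2⟩))))).nx a.mu
  · rcases s.dec (b + d (i + 2)) with h2 | h2 | h2
    · exact absurd h2 hw
    · exact lackR G h he hv hU z3 h2 hg
    by_cases hN : NCok t b (i + 1)
    · exact (fin t a (nx_c3 a hw (by omega)
        (Or.inr (Or.inr (Or.inr (Or.inr ⟨c.2.2.1, by omega, hN⟩)))))).nx a.mu
    simp only [NCok, not_forall] at hN
    obtain ⟨n1, n2, n3, n4, -, n6, n7⟩ := hN
    rw [a.fresh n3 n4, Nat.le_zero] at n6
    rw [a.node] at n2 n7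
    have n8 : ¬ (node s b).Gate b (i + 1) := fun e => n7 ⟨n6, e⟩
    rw [a.z] at n6
    have n9 : (node s b).NC3 (b + d (i + 1)) := ⟨hb, hz, fun e =>
      n8 (pair_game hok.2 ⟨hb, hz, e⟩ n2 (c.2.2.1.trans one_le_two) n6)⟩
    rw [a.De] at n1
    rw [H50.ix11] at n1 n2 n6
    exact xrule G h he hv hg c.1 hr hU h0 n9 h2 n1 n2 n6 n8 c.2
  · rcases c.2.2.2 h0 with e | e
    · exact lack0 G h he hv hg hU h0 hb hz hw (by omega) hr c.2.1
        (Or.inr ⟨by omega, Or.inr (Or.inl (by_contra fun n => e.1 ⟨hb, hz, n⟩))⟩)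
        fun n => absurd n e.1
    rcases s.dec (b + d (i + 2)) with h2 | h2 | h2
    · exact absurd h2 hw
    · exact lackR G h he hv hU z3 h2 hg
    by_cases hk : K0 (insert (b + d (i + 1)) s.De) (b + d (i + 2))
    · exact heavy G h he hv hg hU h0 z3 h2 hk e.1 e.2
    · exact lackG G h he hv hU h0 z3 h2 hk hg

theorem next_rv (G : Gm Lo N) (h : Inv (par Lo N) s) (he : s.e = (b, i)) (hv : b ∉ s.V)
    (hg : 0 ≤ s.g) (hc : RV s b i) : Nx Lo N s := by
  rcases s.dec (b + d (i + 1)) with hx | hx | hx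
  · obtain ⟨a1, a2, a3⟩ := h.turn (by rw [he]; exact hx) (Or.inr (by omega))
    have e1 : s.turn.e = (b, i + 1) := by rw [St.turn_e, he]
    rcases hc with c | c | c
    · exact absurd (by rw [e1]; exact mem_insert_of_mem c) a1.geo.new
    · exact ⟨_, good_rv a1 e1 hv (by omega)
        (Or.inl (by rw [H50.ix11]; exact mem_insert_of_mem c)), by omega⟩
    · exact ⟨_, good_rv a1 e1 hv (by omega)
        (Or.inr (Or.inl (by rw [H50.ix12]; exact mem_insert_of_mem c))), by omega⟩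
  · exact nx_arr G h he ⟨hx, Or.inl (by omega)⟩
  rcases hc with c | c | c
  · exact absurd (h.wall_of (mem_insert_of_mem c)) hx.1
  · exact absurd hx (by simpa only [H50.ix25] using h.back_dec (mem_insert_of_mem c))
  · exact next_c3 G h he hv ⟨by simpa only [H50.ix31] using h.corner_dec c, Or.inr ⟨hx.1, hg,
      Or.inl (by simpa only [H50.ix35] using h.back_dec (mem_insert_of_mem c))⟩⟩

theorem next (G : Gm Lo N) (h : Good Lo N s) : Nx Lo N s := by
  obtain ⟨h, a | ⟨hv, hg, a | a | a⟩⟩ := h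
  · exact nx_arr G h rfl a
  · exact next_rv G h rfl hv hg a
  · exact next_c3 G h rfl hv a
  · exact next_c4 G h rfl hv hg a

end Pool.Agent.MP_6bef34_co.H88
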