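import Pool.Agent.MP_6bef34_co.H7.Game

/-! Start position, reduction of the theorem to the root node, termination. -/

namespace Pool.Agent.MP_6bef34_co.H7

open Finset H60

/-- the rooks are stacked above one far site -/
def P0 (R D : ℕ) : Finset Pt := (range R).image fun j : ℕ => up (-(D : ℤ) - 2, 0) j

theorem mem_P0 {R D : ℕ} {r : Pt} (h : r ∈ P0 R D) : ∃ j : ℕ, r = up (-(D : ℤ) - 2, 0) j := by
  obtain ⟨j, -, rfl⟩ := mem_image.1 h
  exact ⟨j, rfl⟩

theorem root {R D n : ℕ} (h : Win n (up (0, 0) 0) (P0 R D)) :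
    ∃ Q Z, Multiset.card Z ≤ 2 ∧ Node n Z (up (0, 0) 0) Q := by
  rcases n with _ | n
  · exact h.elim
  obtain ⟨P', ⟨-, r, hr, r', a1, a2, ⟨i, a3, a4, -⟩, rfl⟩, h3⟩ := h
  have h0 : up (0, 0) 0 ∉ P0 R D := fun a => by
    obtain ⟨j, hj⟩ := mem_P0 a
    simp [pt_ext] at hj
    omega
  have key : ∀ new, ((WMove r r' ∧ new = 0) ∨ ∃ i, YMove r r' i ∧ new = fresh r' i) →
      ∃ Q Z, Multiset.card Z ≤ 2 ∧ Node (n + 1) Z (up (0, 0) 0) Q := fun new hk => by
    have hr' : Reply (P0 R D) (up (0, 0) 0) r r' (insert r' ((P0 R D).erase r)) new :=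
      ⟨hr, fun a => h0 (a ▸ hr), fun a => a1 (mem_of_mem_erase a), a2,
        by rw [erase_eq_of_notMem h0], hk⟩
    refine ⟨_, new, hr'.card_le, n, h3, fun i => ?_, fun s hs => ?_⟩
    · fin_cases i <;> simp [up]
    · have b1 := hr'.cnt_le s
      have b2 : cnt (P0 R D) s = 0 := cnt_zero.2 fun t ht j a => by
        obtain ⟨m, rfl⟩ := mem_P0 ht
        rcases three_cases j with rfl | rfl | rfl <;> simp [Prod.ext_iff] at a <;> omega
      omega
  rcases Ham1.cases ⟨i, a3, a4⟩ with x | ⟨i, x⟩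
  · exact key 0 (Or.inl ⟨x, rfl⟩)
  · exact key _ (Or.inr ⟨i, x, rfl⟩)

/-- the theorem follows once the root node is impossible -/
theorem final (H : ∀ N Z Q, Multiset.card Z ≤ 2 → ¬ Node N Z (up (0, 0) 0) Q) (R D : ℕ) :
    ∃ (k : Fin 4 → ℤ) (P : Finset (Fin 4 → ℤ)), P.card = R ∧ k ∉ P ∧ ¬ InCheck k P ∧
      (∀ r ∈ P, ∃ i, (D : ℤ) ≤ |r i - k i|) ∧
      ∃ S : Set ((Fin 4 → ℤ) × Finset (Fin 4 → ℤ)), (k, P) ∈ S ∧
        ∀ p ∈ S, ∀ P', WhiteMove p.1 p.2 P' →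
          ∃ k', KingMove p.1 P' k' ∧ (k', P'.erase k') ∈ S := by
  have hinj : Function.Injective fun j : ℕ => up (-(D : ℤ) - 2, 0) j := fun a b h => by
    simpa [pt_ext] using h
  refine ⟨up (0, 0) 0, P0 R D, by rw [P0, card_image_of_injective _ hinj, card_range],
    fun a => ?_, ?_, fun r hr => ?_, {p | ∀ n, ¬ Win n p.1 p.2}, fun n h => ?_,
    fun p hp P' h => escape hp h⟩
  · obtain ⟨j, hj⟩ := mem_P0 a
    simp [pt_ext] at hj
    omega
  · rintro ⟨r, hr, i, a, b, -⟩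
    obtain ⟨j, rfl⟩ := mem_P0 hr
    have := ham1_iff.1 ⟨i, a, b⟩
    simp at this
    omega
  · obtain ⟨j, rfl⟩ := mem_P0 hr
    refine ⟨0, ?_⟩
    rw [le_abs]
    simp
  · obtain ⟨Q, Z, a, b⟩ := root h
    exact H n Z Q a b

/-- a bounded measure cannot grow for ever -/
theorem no_chain {σ : Type*} (Good : σ → Prop) (μ : σ → ℕ) (B : ℕ) (hb : ∀ s, Good s → μ s ≤ B)
    (next : ∀ s, Good s → ∃ s', Good s' ∧ μ s < μ s') (s : σ) : ¬ Good s := by
  intro h
  have : ∀ n : ℕ, ∃ t, Good t ∧ n ≤ μ t := fun n => by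
    induction n with
    | zero => exact ⟨s, h, Nat.zero_le _⟩
    | succ n ih =>
      obtain ⟨t, a, b⟩ := ih
      obtain ⟨u, c, e⟩ := next t a
      exact ⟨u, c, by omega⟩
  obtain ⟨t, a, b⟩ := this (B + 1)
  have := hb t a
  omega

/-- the site lies in the box of radius `M` -/
def Box (M : ℤ) (s : Site) : Prop := |s.1| ≤ M ∧ |s.2| ≤ M

theorem Box.step {M : ℤ} {s : Site} (h : Box M s) (i : ZMod 6) : Box (M + 1) (s + d i) := by
  have a := d_bound i
  refine ⟨(abs_add_le _ _).trans ?_, (abs_add_le _ _).trans ?_⟩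
  · exact add_le_add h.1 a.1
  · exact add_le_add h.2 a.2.1

theorem Box.mono {M M' : ℤ} {s : Site} (h : Box M s) (hm : M ≤ M') : Box M' s :=
  ⟨h.1.trans hm, h.2.trans hm⟩

theorem Node.box_up {N : ℕ} {Z : Multiset Site} {b : Site} {w : ℤ} {Q : Finset Pt}
    (h : Node N Z (up b w) Q) : Box N b := ⟨h.box 0, h.box 1⟩

theorem Node.box_tri {N : ℕ} {Z : Multiset Site} {b : Site} {i : ZMod 6} {w : ℤ} {Q : Finset Pt}
    (h : Node N Z (tri b i w) Q) : Box (N + 1) b := by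
  have a0 := abs_le.1 (h.box 0)
  have a1 := abs_le.1 (h.box 1)
  simp only [Box, abs_le]
  rcases table i with a | a | a | a | a | a <;> simp [a] at a0 a1 <;> omega

/-- the measure `6 |De| + |O|` is bounded in a box -/
theorem Geo.measure_le {De R : Finset Site} {O : Finset Dart} {e : Dart} (h : Geo De R O e)
    {M : ℤ} (h1 : ∀ s ∈ De, Box M s) (h2 : ∀ s ∈ R, Box M s) :
    6 * De.card + O.card ≤ 12 * (Icc (-M) M ×ˢ Icc (-M) M).card := by
  have m : ∀ s, Box M s → s ∈ Icc (-M) M ×ˢ Icc (-M) M := fun s a =>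
    mem_product.2 ⟨mem_Icc.2 (abs_le.1 a.1), mem_Icc.2 (abs_le.1 a.2)⟩
  have a1 : De.card ≤ _ := card_le_card fun s hs => m s (h1 s hs)
  have a2 : O.card ≤ ((Icc (-M) M ×ˢ Icc (-M) M) ×ˢ (univ : Finset (ZMod 6))).card :=
    card_le_card fun f hf => mem_product.2 ⟨m _ (h2 _ (h.ok f (mem_insert_of_mem hf)).2),
      mem_univ _⟩
  rw [card_product, card_univ, ZMod.card] at a2
  omega

/-- claims are bounded by the tokens -/
theorem card_le_of_count {C Z : Multiset Site} (h : ∀ s, C.count s ≤ Z.count s) :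
    C.card ≤ Z.card := Multiset.card_le_card (Multiset.le_iff_count.2 h)

end Pool.Agent.MP_6bef34_co.H7
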